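import Pool.Agent.CpFU.Core

/-!
# The sigma-centred step (module `Disc` of `MP_435463_gt`)
-/

universe u

open Set Topology

namespace Pool.Agent.CpFU

namespace Disc

/-- Conditions: a finite sequence of finite sets of pairs, and a finite set of promises. -/
structure Cond (I : Type u) where
  s : List (Finset (ℕ × ℕ))
  G : Finset I

variable {K : Type u} {I : Type u}

/-- The `k`-th set `X` respects the promise `G`. -/
def Good (d : ℕ → K) (a b : I → K) (y : I → K → ℝ) (η : ℝ) (G : Finset I) (k : ℕ)
    (X : Finset (ℕ × ℕ)) : Prop :=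
  (∀ i ∈ G, ∃ e ∈ X, 5 * η / 6 ≤ y i (d e.2) - y i (d e.1)) ∧
  (∀ e ∈ X, ∃ j, ∀ i ∈ G, |y i (d e.1) - y i (a j)| < 1 / ((k : ℝ) + 1) ∧
      |y i (d e.2) - y i (b j)| < 1 / ((k : ℝ) + 1))

theorem Good.mono {d : ℕ → K} {a b : I → K} {y : I → K → ℝ} {η : ℝ} {G G' : Finset I}
    {k : ℕ} {X : Finset (ℕ × ℕ)} (h : Good d a b y η G' k X) (hG : G ⊆ G') :
    Good d a b y η G k X :=
  ⟨fun i hi => h.1 i (hG hi), fun e he => by
    obtain ⟨j, hj⟩ := h.2 e he
    exact ⟨j, fun i hi => hj i (hG hi)⟩⟩

/-- The order of the poset. -/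
abbrev pre (d : ℕ → K) (a b : I → K) (y : I → K → ℝ) (η : ℝ) : Preorder (Cond I) where
  le q p := (∀ (k : ℕ) (X : Finset (ℕ × ℕ)), p.s[k]? = some X → q.s[k]? = some X) ∧
    p.G ⊆ q.G ∧
    (∀ (k : ℕ) (X : Finset (ℕ × ℕ)), q.s[k]? = some X → p.s[k]? = none →
      Good d a b y η p.G k X)
  le_refl p := ⟨fun _ _ h => h, fun _ h => h, fun k X h h' => by rw [h] at h'; simp at h'⟩
  le_trans r q p hrq hqp := by
    refine ⟨fun k X h => hrq.1 k X (hqp.1 k X h), fun i hi => hrq.2.1 (hqp.2.1 hi), ?_⟩
    intro k X h h'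
    rcases hq : q.s[k]? with _ | X'
    · exact (hrq.2.2 k X h hq).mono hqp.2.1
    · have h1 := hrq.1 k X' hq
      rw [h] at h1
      obtain rfl : X = X' := by simpa using h1
      exact hqp.2.2 k X hq h'

/-- A continuous function on a compact space which factors through a family of continuous
functions factors uniformly. -/
theorem factor [TopologicalSpace K] [CompactSpace K] (y : I → K → ℝ)
    (hy : ∀ i, Continuous (y i)) (z : K → ℝ) (hz : Continuous z)
    (hf : ∀ u v, (∀ i, y i u = y i v) → z u = z v) (ε : ℝ) (hε : 0 < ε) :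
    ∃ (G : Finset I) (n : ℕ), ∀ u v, (∀ i ∈ G, |y i u - y i v| < 1 / ((n : ℝ) + 1)) →
      |z u - z v| < ε := by
  classical
  have hs : IsCompact {p : K × K | ε ≤ |z p.1 - z p.2|} :=
    (isClosed_le continuous_const (by fun_prop)).isCompact
  obtain ⟨F, hF⟩ := hs.elim_finite_subfamily_closed
    (fun q : I × ℕ => {p : K × K | |y q.1 p.1 - y q.1 p.2| ≤ 1 / ((q.2 : ℝ) + 1)})
    (fun q => isClosed_le (by have := hy q.1; fun_prop) continuous_const) (by
      rw [Set.eq_empty_iff_forall_notMem]
      rintro ⟨u, v⟩ ⟨h1, h2⟩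
      have h3 : ∀ i, y i u = y i v := by
        intro i
        by_contra hne
        have hpos : 0 < |y i u - y i v| := abs_pos.mpr (sub_ne_zero.mpr hne)
        obtain ⟨n, hn⟩ := exists_nat_one_div_lt hpos
        have h4 := Set.mem_iInter.mp h2 (i, n)
        simp only [Set.mem_ofPred_eq] at h4
        linarith
      have h5 := hf u v h3
      simp only [Set.mem_ofPred_eq, h5, sub_self, abs_zero] at h1
      linarith)
  refine ⟨F.image Prod.fst, F.sup Prod.snd, fun u v h => ?_⟩
  by_contra hcon
  have h6 : ((u, v) : K × K) ∈ ({p : K × K | ε ≤ |z p.1 - z p.2|} ∩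
      ⋂ q ∈ F, {p : K × K | |y q.1 p.1 - y q.1 p.2| ≤ 1 / ((q.2 : ℝ) + 1)}) := by
    refine ⟨not_lt.mp hcon, ?_⟩
    simp only [Set.mem_iInter, Set.mem_ofPred_eq]
    intro q hq
    have h7 := h q.1 (Finset.mem_image_of_mem _ hq)
    have h8 : (q.2 : ℝ) ≤ ((F.sup Prod.snd : ℕ) : ℝ) := by
      exact_mod_cast Finset.le_sup (f := Prod.snd) hq
    refine h7.le.trans ?_
    apply one_div_le_one_div_of_le (by positivity)
    linarith
  rw [hF] at h6
  exact h6

end Disc

open Disc in
/-- The sigma-centred step. -/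
theorem disc : Disc_Stmt.{u} := by
  classical
  intro hMA K _ _ _ _ Y hYc hCE I hI a b y hyY η hη hsmall hbig
  have hyc : ∀ i, Continuous (y i) := fun i => hYc _ (hyY i)
  have hIinf : Infinite I := by
    rw [Cardinal.infinite_iff, hI]
    exact Cardinal.aleph0_le_aleph 1
  have hIunc : Uncountable I := by
    rw [← Cardinal.aleph0_lt_mk_iff, hI]
    exact Cardinal.aleph0_lt_aleph_one
  obtain ⟨i₀⟩ : Nonempty I := inferInstance
  have : Nonempty K := ⟨a i₀⟩
  set d : ℕ → K := TopologicalSpace.denseSeq K with hd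
  have hdense : DenseRange d := TopologicalSpace.denseRange_denseSeq K
  let _ := pre d a b y η
  have hle : ∀ q p : Cond I, q ≤ p ↔
      ((∀ (k : ℕ) (X : Finset (ℕ × ℕ)), p.s[k]? = some X → q.s[k]? = some X) ∧
      p.G ⊆ q.G ∧
      (∀ (k : ℕ) (X : Finset (ℕ × ℕ)), q.s[k]? = some X → p.s[k]? = none →
        Good d a b y η p.G k X)) :=
    fun _ _ => Iff.rfl
  have : Nonempty (Cond I) := ⟨⟨[], ∅⟩⟩
  -- the poset is ccc
  have hccc : CCC (Cond I) := by
    intro A hA
    have hinj : Set.InjOn (fun p : Cond I => p.s) A := by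
      intro p hp q hq hpq
      by_contra hne
      apply hA p hp q hq hne
      refine ⟨⟨p.s, p.G ∪ q.G⟩, ?_, ?_⟩
      · rw [hle]
        exact ⟨fun _ _ h => h, Finset.subset_union_left, fun k X h h' => by
          simp only at h; rw [h] at h'; simp at h'⟩
      · rw [hle]
        refine ⟨fun k X h => ?_, Finset.subset_union_right, fun k X h h' => ?_⟩
        · simp only at hpq ⊢; rw [hpq]; exact h
        · simp only at h hpq; rw [← hpq, h] at h'; simp at h'
    exact Set.countable_of_injective_of_countable_image hinj (Set.to_countable _)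
  -- promises
  let DG : Finset I → Set (Cond I) := fun G => {p | G ⊆ p.G}
  let DN : ℕ → Set (Cond I) := fun n => {p | n < p.s.length}
  have hDG : ∀ G, DenseSet (DG G) := by
    intro G p
    refine ⟨⟨p.s, p.G ∪ G⟩, Finset.subset_union_right, ?_⟩
    rw [hle]
    exact ⟨fun _ _ h => h, Finset.subset_union_left, fun k X h h' => by
          simp only at h; rw [h] at h'; simp at h'⟩
  have hstep : ∀ p : Cond I, ∃ q ≤ p, q.s.length = p.s.length + 1 := by
    intro p
    set ε : ℝ := min (1 / ((p.s.length : ℝ) + 1)) (η / 12) with hεdef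
    have hε : 0 < ε := lt_min (by positivity) (by positivity)
    have hap : ∀ x : K, ∃ n, ∀ i ∈ p.G, |y i (d n) - y i x| < ε := by
      intro x
      have hopen : IsOpen (⋂ i ∈ p.G, {w : K | |y i w - y i x| < ε}) := by
        refine isOpen_biInter_finset fun i _ => ?_
        have := hyc i
        exact isOpen_lt (by fun_prop) continuous_const
      obtain ⟨n, hn⟩ := hdense.exists_mem_open hopen ⟨x, by simp [hε]⟩
      refine ⟨n, fun i hi => ?_⟩
      have := Set.mem_iInter₂.mp hn i hi
      exact this
    choose f hf using hap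
    refine ⟨⟨p.s ++ [p.G.image (fun i => (f (a i), f (b i)))], p.G⟩, ?_, by simp⟩
    rw [hle]
    refine ⟨fun k X h => ?_, fun _ h => h, fun k X h h' => ?_⟩
    · simp only
      rw [List.getElem?_append_left]
      · exact h
      · by_contra hlt
        rw [List.getElem?_eq_none (not_lt.mp hlt)] at h
        simp at h
    · simp only at h
      have hk : p.s.length ≤ k := by
        rwa [List.getElem?_eq_none_iff] at h'
      rw [List.getElem?_append_right hk] at h
      have hk' : k = p.s.length := by
        by_contra hne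
        have : 1 ≤ k - p.s.length := by omega
        rw [List.getElem?_eq_none (by simpa using this)] at h
        simp at h
      subst hk'
      simp only [Nat.sub_self, List.getElem?_cons_zero, Option.some.injEq] at h
      subst h
      constructor
      · intro i hi
        refine ⟨_, Finset.mem_image_of_mem _ hi, ?_⟩
        have h1 := hf (a i) i hi
        have h2 := hf (b i) i hi
        have h3 : ε ≤ η / 12 := min_le_right _ _
        have h4 := hbig i
        rw [abs_lt] at h1 h2
        simp only
        linarith [h1.1, h1.2, h2.1, h2.2]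
      · intro e he
        obtain ⟨j, hj, rfl⟩ := Finset.mem_image.mp he
        refine ⟨j, fun i hi => ⟨?_, ?_⟩⟩
        · exact (hf (a j) i hi).trans_le (min_le_left _ _)
        · exact (hf (b j) i hi).trans_le (min_le_left _ _)
  have hDN : ∀ n, DenseSet (DN n) := by
    intro n
    induction n with
    | zero =>
      intro p
      obtain ⟨q, hq, hql⟩ := hstep p
      exact ⟨q, by show 0 < q.s.length; omega, hq⟩
    | succ n ih =>
      intro p
      obtain ⟨q, hq, hqp⟩ := ih p
      obtain ⟨r, hr, hrl⟩ := hstep q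
      have hq' : n < q.s.length := hq
      exact ⟨r, by show n + 1 < r.s.length; omega, le_trans hr hqp⟩
  -- the generic filter
  obtain ⟨F, hF, hFD⟩ := hMA (Cond I) hccc (Set.range DG ∪ Set.range DN) (by
      refine (Cardinal.mk_union_le _ _).trans ?_
      have h1 : Cardinal.mk (Set.range DG) ≤ Cardinal.aleph 1 := by
        refine Cardinal.mk_range_le.trans ?_
        rw [Cardinal.mk_finset_of_infinite, hI]
      have h2 : Cardinal.mk (Set.range DN) ≤ Cardinal.aleph 1 := by
        refine (Cardinal.mk_le_aleph0_iff.mpr (Set.countable_range DN).to_subtype).trans ?_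
        exact Cardinal.aleph0_le_aleph 1
      exact (add_le_add h1 h2).trans (by
        rw [Cardinal.add_eq_self (Cardinal.aleph0_le_aleph 1)])) (by
      rintro D (⟨G, rfl⟩ | ⟨n, rfl⟩)
      · exact hDG G
      · exact hDN n)
  have hX : ∀ k : ℕ, ∃ X : Finset (ℕ × ℕ), ∃ p ∈ F, p.s[k]? = some X := by
    intro k
    obtain ⟨p, hp, hpk⟩ := hFD (DN k) (Or.inr ⟨k, rfl⟩)
    have hpk' : k < p.s.length := hpk
    exact ⟨p.s[k], p, hp, List.getElem?_eq_getElem hpk'⟩
  choose X hX using hX
  have hgood : ∀ G : Finset I, ∃ N, ∀ k ≥ N, Good d a b y η G k (X k) := by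
    intro G
    obtain ⟨p, hp, hpG⟩ := hFD (DG G) (Or.inl ⟨G, rfl⟩)
    refine ⟨p.s.length, fun k hk => ?_⟩
    obtain ⟨q, hq, hqk⟩ := hX k
    obtain ⟨r, hr, hrp, hrq⟩ := hF.directed p hp q hq
    rw [hle] at hrp hrq
    exact (hrp.2.2 k (X k) (hrq.1 k _ hqk) (List.getElem?_eq_none hk)).mono hpG
  -- uncountably many indices with the same bound
  let IN : ℕ → Set I := fun N => {i | ∀ k ≥ N, ∃ e ∈ X k, 5 * η / 6 ≤ y i (d e.2) - y i (d e.1)}
  have hcov : ∀ i, ∃ N, i ∈ IN N := by
    intro i
    obtain ⟨N, hN⟩ := hgood {i}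
    exact ⟨N, fun k hk => (hN k hk).1 i (Finset.mem_singleton_self i)⟩
  obtain ⟨N, hN⟩ : ∃ N, ¬ (IN N).Countable := by
    by_contra hcon
    push Not at hcon
    have : (Set.univ : Set I).Countable := by
      refine (Set.countable_iUnion hcon).mono fun i _ => ?_
      obtain ⟨N, hN⟩ := hcov i
      exact Set.mem_iUnion.mpr ⟨N, hN⟩
    exact Set.not_countable_univ this
  apply hN
  have hinj : Function.Injective y := by
    intro i j hij
    by_contra hne
    have h1 := hbig i
    have h2 := hsmall j i (Ne.symm hne)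
    rw [← hij, abs_lt] at h2
    linarith [h2.2]
  have hD : (y '' IN N).Countable := by
    apply hCE
    · rintro _ ⟨i, -, rfl⟩
      exact hyY i
    · intro z hz
      have hzc := hYc z hz
      by_cases hf : ∀ u v, (∀ i, y i u = y i v) → z u = z v
      swap
      · push Not at hf
        obtain ⟨u, v, huv, hne⟩ := hf
        refine ⟨{w | w u ≠ w v}, ?_, ?_⟩
        · exact (isOpen_ne_fun (continuous_apply u) (continuous_apply v)).mem_nhds hne
        · rintro w ⟨hw, i, -, rfl⟩
          exact absurd (huv i) hw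
      by_cases hbd : ∃ i, 2 * η / 3 < z (b i) - z (a i)
      · obtain ⟨i, hi⟩ := hbd
        have hopen : IsOpen {w : K → ℝ | 2 * η / 3 < w (b i) - w (a i)} :=
          isOpen_lt continuous_const ((continuous_apply _).sub (continuous_apply _))
        have hsub : ∀ w ∈ {w : K → ℝ | 2 * η / 3 < w (b i) - w (a i)} ∩ (y '' IN N),
            w = y i := by
          rintro w ⟨hw, j, -, rfl⟩
          by_contra hne
          have hij : j ≠ i := fun h => hne (by rw [h])
          have h2 := hsmall j i hij
          rw [abs_lt] at h2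
          simp only [Set.mem_ofPred_eq] at hw
          linarith [h2.2]
        by_cases hz' : y i = z
        · refine ⟨_, hopen.mem_nhds hi, fun w hw => ?_⟩
          rw [Set.mem_singleton_iff, hsub w hw, hz']
        · refine ⟨{w : K → ℝ | 2 * η / 3 < w (b i) - w (a i)} ∩ {y i}ᶜ,
            (hopen.inter isOpen_compl_singleton).mem_nhds ⟨hi, fun h => hz' h.symm⟩, ?_⟩
          rintro w ⟨⟨hw1, hw2⟩, hw3⟩
          exact absurd (hsub w ⟨hw1, hw3⟩) hw2
      · push Not at hbd
        obtain ⟨G, n, hGn⟩ := factor y hyc z hzc hf (η / 12) (by positivity)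
        obtain ⟨N', hN'⟩ := hgood G
        set k := max N (max N' n) with hk
        have hkN : N ≤ k := le_max_left _ _
        have hkN' : N' ≤ k := (le_max_left _ _).trans (le_max_right _ _)
        have hkn : n ≤ k := (le_max_right _ _).trans (le_max_right _ _)
        refine ⟨{w : K → ℝ | ∀ e ∈ X k, w (d e.2) - w (d e.1) < 5 * η / 6}, ?_, ?_⟩
        · have hopen : IsOpen (⋂ e ∈ X k, {w : K → ℝ | w (d e.2) - w (d e.1) < 5 * η / 6}) :=
            isOpen_biInter_finset fun e _ =>
              isOpen_lt ((continuous_apply (d e.2)).sub (continuous_apply (d e.1)))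
                continuous_const
          have heq : {w : K → ℝ | ∀ e ∈ X k, w (d e.2) - w (d e.1) < 5 * η / 6} =
              ⋂ e ∈ X k, {w : K → ℝ | w (d e.2) - w (d e.1) < 5 * η / 6} := by
            ext w; simp
          rw [heq]
          apply hopen.mem_nhds
          rw [← heq]
          intro e he
          obtain ⟨j, hj⟩ := (hN' k hkN').2 e he
          have hkn' : 1 / ((k : ℝ) + 1) ≤ 1 / ((n : ℝ) + 1) := by
            apply one_div_le_one_div_of_le (by positivity)
            have : (n : ℝ) ≤ (k : ℝ) := by exact_mod_cast hkn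
            linarith
          have h1 := hGn (d e.1) (a j) (fun i hi => ((hj i hi).1).trans_le hkn')
          have h2 := hGn (d e.2) (b j) (fun i hi => ((hj i hi).2).trans_le hkn')
          have h3 := hbd j
          rw [abs_lt] at h1 h2
          linarith [h1.1, h1.2, h2.1, h2.2]
        · rintro w ⟨hw, i, hi, rfl⟩
          exfalso
          obtain ⟨e, he, hee⟩ := hi k hkN
          have := hw e he
          linarith
  exact Set.countable_of_injective_of_countable_image (hinj.injOn) hD

end Pool.Agent.CpFU
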