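import Pool.Agent.CpFU.Core

/-!
# The ccc step: an uncountable homogeneous set from Martin's Axiom
-/

universe u

open Set Topology

namespace Pool.Agent.CpFU

section HomStep

variable {K : Type u} [TopologicalSpace K] {I : Type u} [LinearOrder I]

/-- Conditions of the poset. -/
def HGood (a b : I → K) (y : I → K → ℝ) (η : ℝ) (F : Finset I) : Prop :=
  ∀ i ∈ F, ∀ j ∈ F, i ≠ j → |y i (b j) - y i (a j)| < η

omit [TopologicalSpace K] in
lemma HGood.mono {a b : I → K} {y : I → K → ℝ} {η : ℝ} {F G : Finset I}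
    (h : HGood a b y η G) (hs : F ⊆ G) : HGood a b y η F :=
  fun i hi j hj hij => h i (hs hi) j (hs hj) hij

/-- The root of an uncountable family of finite sets of bounded size. -/
lemma exists_root (A : Set (Finset I)) (n : ℕ) (hn : ∀ F ∈ A, F.card ≤ n)
    (hA : ¬ A.Countable) :
    ∃ R : Finset I, ¬ {F | F ∈ A ∧ R ⊆ F}.Countable ∧
      ∀ i, i ∉ R → {F | F ∈ A ∧ insert i R ⊆ F}.Countable := by
  by_contra hcon
  push Not at hcon
  have key : ∀ k : ℕ, ∃ R : Finset I, R.card = k ∧ ¬ {F | F ∈ A ∧ R ⊆ F}.Countable := by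
    intro k
    induction k with
    | zero =>
      refine ⟨∅, rfl, ?_⟩
      intro h
      apply hA
      refine h.mono ?_
      intro F hF
      exact ⟨hF, Finset.empty_subset F⟩
    | succ k ih =>
      obtain ⟨R, hRk, hR⟩ := ih
      obtain ⟨i, hi, hc⟩ := hcon R hR
      exact ⟨insert i R, by rw [Finset.card_insert_of_notMem hi, hRk], hc⟩
  obtain ⟨R, hRk, hR⟩ := key (n + 1)
  apply hR
  have : {F | F ∈ A ∧ R ⊆ F} = ∅ := by
    ext F
    constructor
    · rintro ⟨hF, hRF⟩
      have h1 := Finset.card_le_card hRF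
      have h2 := hn F hF
      omega
    · intro h
      exact h.elim
  rw [this]
  exact Set.countable_empty

/-- Complete accumulation points in compact spaces. -/
lemma exists_complete_acc {X T : Type u} [TopologicalSpace X] [CompactSpace X] (x : T → X)
    (hT : ¬ Countable T) : ∃ p : X, ∀ U ∈ 𝓝 p, ¬ {t | x t ∈ U}.Countable := by
  by_contra hcon
  push Not at hcon
  choose U hU hc using hcon
  obtain ⟨s, hs⟩ := CompactSpace.elim_nhds_subcover U hU
  apply hT
  rw [← Set.countable_univ_iff]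
  have : (Set.univ : Set T) ⊆ ⋃ p ∈ s, {t | x t ∈ U p} := by
    intro t _
    have h1 : x t ∈ (⊤ : Set X) := trivial
    rw [← hs] at h1
    rw [Set.mem_iUnion₂] at h1 ⊢
    obtain ⟨p, hp, hx⟩ := h1
    exact ⟨p, hp, hx⟩
  refine Set.Countable.mono this ?_
  exact Set.Countable.biUnion s.countable_toSet (fun p _ => hc p)

/-- A countable set is bounded strictly, inside any uncountable set. -/
lemma exists_gt_countable (hI : ∀ i : I, (Set.Iic i).Countable) (S : Set I)
    (hS : ¬ S.Countable) (C : Set I) (hC : C.Countable) : ∃ i ∈ S, ∀ c ∈ C, c < i := by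
  have h1 : (⋃ c ∈ C, Set.Iic c).Countable := hC.biUnion (fun c _ => hI c)
  by_contra hcon
  push Not at hcon
  apply hS
  refine h1.mono ?_
  intro i hi
  obtain ⟨c, hc, hle⟩ := hcon i hi
  rw [Set.mem_iUnion₂]
  exact ⟨c, hc, hle⟩

/-- The chain condition. -/
lemma ccc_core [CompactSpace K]
    (hK : ∀ m : ℕ, CountablyTight (Fin m → K × K))
    (hI : ∀ i : I, (Set.Iic i).Countable)
    (a b : I → K) (y : I → K → ℝ) (hy : ∀ i, Continuous (y i))
    (hab : ∀ i j, j < i → y j (a i) = y j (b i)) (η : ℝ) (hη : 0 < η)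
    (A : Set (Finset I)) (hA : ∀ F ∈ A, HGood a b y η F)
    (hanti : ∀ F ∈ A, ∀ G ∈ A, F ≠ G → ¬ HGood a b y η (F ∪ G)) : A.Countable := by
  by_contra hunc
  -- same size
  have hsize : ∃ n : ℕ, ¬ {F | F ∈ A ∧ F.card = n}.Countable := by
    by_contra hcon
    push Not at hcon
    apply hunc
    have : A ⊆ ⋃ n : ℕ, {F | F ∈ A ∧ F.card = n} := by
      intro F hF
      rw [Set.mem_iUnion]
      exact ⟨F.card, hF, rfl⟩
    exact (Set.countable_iUnion hcon).mono this
  obtain ⟨n, hn⟩ := hsize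
  obtain ⟨R, hR, hRmax⟩ := exists_root {F | F ∈ A ∧ F.card = n} n
    (fun F hF => le_of_eq hF.2) hn
  set B : Set (Finset I) := {F | F ∈ {F | F ∈ A ∧ F.card = n} ∧ R ⊆ F} with hB
  have hBA : ∀ F ∈ B, F ∈ A := fun F hF => hF.1.1
  have hBR : ∀ F ∈ B, R ⊆ F := fun F hF => hF.2
  -- only countably many F in B meet Iic i outside R
  have hmeet : ∀ i : I, {F | F ∈ B ∧ ∃ j ∈ F \ R, j ≤ i}.Countable := by
    intro i
    have h1 : (⋃ j ∈ Set.Iic i, {F | F ∈ B ∧ j ∈ F \ R}).Countable := by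
      refine (hI i).biUnion ?_
      intro j _
      by_cases hj : j ∈ R
      · have : {F | F ∈ B ∧ j ∈ F \ R} = ∅ := by
          ext F
          constructor
          · rintro ⟨_, h⟩
            exact ((Finset.mem_sdiff.mp h).2 hj).elim
          · intro h
            exact h.elim
        rw [this]
        exact Set.countable_empty
      · refine (hRmax j hj).mono ?_
        rintro F ⟨hF, hjF⟩
        refine ⟨hF.1, ?_⟩
        intro k hk
        rcases Finset.mem_insert.mp hk with rfl | hk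
        · exact (Finset.mem_sdiff.mp hjF).1
        · exact hF.2 hk
    refine h1.mono ?_
    rintro F ⟨hF, j, hj, hji⟩
    rw [Set.mem_iUnion₂]
    exact ⟨j, hji, hF, hj⟩
  have hmeetC : ∀ C : Set I, C.Countable → {F | F ∈ B ∧ ∃ i ∈ C, ∃ j ∈ F \ R, j ≤ i}.Countable := by
    intro C hC
    have h1 : (⋃ i ∈ C, {F | F ∈ B ∧ ∃ j ∈ F \ R, j ≤ i}).Countable :=
      hC.biUnion (fun i _ => hmeet i)
    refine h1.mono ?_
    rintro F ⟨hF, i, hi, h⟩
    rw [Set.mem_iUnion₂]
    exact ⟨i, hi, hF, h⟩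
  -- enumerations
  have henum : ∀ F : B, ∃ e : Fin (n - R.card) → I, ∀ j, j ∈ F.1 \ R ↔ ∃ k, e k = j := by
    intro F
    have hcard : (F.1 \ R).card = n - R.card := by
      rw [Finset.card_sdiff_of_subset (hBR F.1 F.2), F.2.1.2]
    refine ⟨fun k => ((F.1 \ R).equivFin.symm (Fin.cast hcard.symm k)).1, ?_⟩
    intro j
    constructor
    · intro hj
      refine ⟨Fin.cast hcard ((F.1 \ R).equivFin ⟨j, hj⟩), ?_⟩
      simp
    · rintro ⟨k, rfl⟩
      exact ((F.1 \ R).equivFin.symm (Fin.cast hcard.symm k)).2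
  choose e he using henum
  let x : B → (Fin (n - R.card) → K × K) := fun F k => (a (e F k), b (e F k))
  have hBunc : ¬ Countable B := by
    intro h
    exact hR (Set.countable_coe_iff.mp h)
  obtain ⟨p, hp⟩ := exists_complete_acc x hBunc
  -- all y_i agree at the coordinates of p
  have hpy : ∀ i k, y i (p k).1 = y i (p k).2 := by
    intro i k
    by_contra hne
    have hopen : IsOpen {z : Fin (n - R.card) → K × K | y i (z k).1 ≠ y i (z k).2} := by
      refine isOpen_ne_fun ?_ ?_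
      · exact (hy i).comp (continuous_fst.comp (continuous_apply k))
      · exact (hy i).comp (continuous_snd.comp (continuous_apply k))
    apply hp _ (hopen.mem_nhds hne)
    have hc : {F : B | ∃ j ∈ F.1 \ R, j ≤ i}.Countable := by
      have := (hmeet i).preimage (f := fun F : B => F.1) Subtype.val_injective
      refine this.mono ?_
      intro F hF
      exact ⟨F.2, hF⟩
    refine hc.mono ?_
    intro F hF
    refine ⟨e F k, (he F _).mpr ⟨k, rfl⟩, ?_⟩
    by_contra hlt
    push Not at hlt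
    exact hF (hab _ _ hlt)
  -- p in the closure of the family
  have hpcl : p ∈ closure (Set.range x) := by
    rw [mem_closure_iff_nhds]
    intro U hU
    have h1 := hp U hU
    have h2 : {t | x t ∈ U}.Nonempty := by
      rw [Set.nonempty_iff_ne_empty]
      intro h
      rw [h] at h1
      exact h1 Set.countable_empty
    obtain ⟨t, ht⟩ := h2
    exact ⟨x t, ht, t, rfl⟩
  obtain ⟨C, hCsub, hCc, hpC⟩ := hK _ _ p hpcl
  -- countable subfamily
  have hCx : ∀ z : C, ∃ F : B, x F = z.1 := fun z => hCsub z.2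
  choose g hg using hCx
  have hCc' : Countable C := hCc.to_subtype
  have hidx : (⋃ z : C, (((g z).1 : Finset I) : Set I)).Countable :=
    Set.countable_iUnion (fun z => Finset.countable_toSet _)
  -- choose F'
  have hF' : ∃ F' : B, (∀ z : C, g z ≠ F') ∧
      ¬ ∃ i ∈ (⋃ z : C, (((g z).1 : Finset I) : Set I)), ∃ j ∈ F'.1 \ R, j ≤ i := by
    by_contra hcon
    push Not at hcon
    apply hR
    have h1 := (hmeetC _ hidx).union ((Set.countable_range (fun z : C => (g z).1)))
    refine h1.mono ?_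
    intro F hF
    by_cases h : ∃ z : C, (g z).1 = F
    · right
      exact h
    · left
      refine ⟨hF, ?_⟩
      refine hcon ⟨F, hF⟩ ?_
      intro z hz
      exact h ⟨z, by rw [hz]⟩
  obtain ⟨F', hF'1, hF'2⟩ := hF'
  -- the open set around p
  let U : Set (Fin (n - R.card) → K × K) :=
    ⋂ i ∈ F'.1 \ R, ⋂ k, {z | |y i (z k).2 - y i (z k).1| < η}
  have hUopen : IsOpen U := by
    refine isOpen_biInter_finset ?_
    intro i _
    refine isOpen_iInter_of_finite ?_
    intro k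
    have hc : Continuous (fun z : Fin (n - R.card) → K × K => |y i (z k).2 - y i (z k).1|) := by
      refine Continuous.abs ?_
      exact ((hy i).comp (continuous_snd.comp (continuous_apply k))).sub
        ((hy i).comp (continuous_fst.comp (continuous_apply k)))
    exact isOpen_lt hc continuous_const
  have hpU : p ∈ U := by
    refine Set.mem_iInter₂.mpr ?_
    intro i _
    refine Set.mem_iInter.mpr ?_
    intro k
    change |y i (p k).2 - y i (p k).1| < η
    rw [hpy i k, sub_self, abs_zero]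
    exact hη
  obtain ⟨z, hzU, hzC⟩ := mem_closure_iff.mp hpC U hUopen hpU
  set F : B := g ⟨z, hzC⟩ with hFdef
  have hxF : x F = z := hg ⟨z, hzC⟩
  -- F and F' are incompatible
  have hne : F.1 ≠ F'.1 := by
    intro h
    exact hF'1 ⟨z, hzC⟩ (Subtype.ext h)
  have hinc := hanti F.1 (hBA _ F.2) F'.1 (hBA _ F'.2) hne
  apply hinc
  have hlt : ∀ i ∈ F.1, ∀ j ∈ F'.1 \ R, i < j := by
    intro i hi j hj
    by_contra hcon
    push Not at hcon
    apply hF'2
    refine ⟨i, ?_, j, hj, hcon⟩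
    rw [Set.mem_iUnion]
    exact ⟨⟨z, hzC⟩, hi⟩
  have hcross : ∀ i ∈ F'.1 \ R, ∀ j ∈ F.1 \ R, |y i (b j) - y i (a j)| < η := by
    intro i hi j hj
    obtain ⟨k, hk⟩ := (he F j).mp hj
    have h1 := Set.mem_iInter.mp (Set.mem_iInter₂.mp hzU i hi) k
    change |y i (z k).2 - y i (z k).1| < η at h1
    rw [← hxF] at h1
    change |y i (b (e F k)) - y i (a (e F k))| < η at h1
    rwa [hk] at h1
  intro i hi j hj hij
  rcases Finset.mem_union.mp hi with hi1 | hi2
  · rcases Finset.mem_union.mp hj with hj1 | hj2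
    · exact hA _ (hBA _ F.2) i hi1 j hj1 hij
    · by_cases hjR : j ∈ R
      · exact hA _ (hBA _ F.2) i hi1 j (hBR _ F.2 hjR) hij
      · have hlt' := hlt i hi1 j (Finset.mem_sdiff.mpr ⟨hj2, hjR⟩)
        rw [hab _ _ hlt', sub_self, abs_zero]
        exact hη
  · rcases Finset.mem_union.mp hj with hj1 | hj2
    · by_cases hiR : i ∈ R
      · exact hA _ (hBA _ F.2) i (hBR _ F.2 hiR) j hj1 hij
      · by_cases hjR : j ∈ R
        · exact hA _ (hBA _ F'.2) i hi2 j (hBR _ F'.2 hjR) hij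
        · exact hcross i (Finset.mem_sdiff.mpr ⟨hi2, hiR⟩) j (Finset.mem_sdiff.mpr ⟨hj1, hjR⟩)
    · exact hA _ (hBA _ F'.2) i hi2 j hj2 hij

/-- A condition below which the sets are unbounded. -/
lemma exists_unbounded_cond
    (hI : ∀ i : I, (Set.Iic i).Countable) (hIu : ¬ Countable I)
    (a b : I → K) (y : I → K → ℝ) (η : ℝ)
    (hccc : ∀ A : Set (Finset I), (∀ F ∈ A, HGood a b y η F) →
      (∀ F ∈ A, ∀ G ∈ A, F ≠ G → ¬ HGood a b y η (F ∪ G)) → A.Countable) :
    ∃ p : Finset I, HGood a b y η p ∧ ∀ α : I, ∀ F, HGood a b y η F → p ⊆ F →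
      ∃ G, HGood a b y η G ∧ F ⊆ G ∧ ∃ i ∈ G, α ≤ i := by
  by_contra hcon
  push Not at hcon
  let E : Set (Finset I) := {F | HGood a b y η F ∧ ∃ α : I, ∀ G, HGood a b y η G → F ⊆ G →
    ∀ i ∈ G, i < α}
  let S : Set (Set (Finset I)) := {A | A ⊆ E ∧ ∀ F ∈ A, ∀ G ∈ A, F ≠ G →
    ¬ HGood a b y η (F ∪ G)}
  have hS : ∀ c ⊆ S, IsChain (· ⊆ ·) c → ∃ ub ∈ S, ∀ s ∈ c, s ⊆ ub := by
    intro c hc hchain
    refine ⟨⋃₀ c, ⟨?_, ?_⟩, fun s hs => Set.subset_sUnion_of_mem hs⟩
    · intro F hF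
      obtain ⟨s, hs, hFs⟩ := hF
      exact (hc hs).1 hFs
    · rintro F ⟨s, hs, hFs⟩ G ⟨t, ht, hGt⟩ hFG
      rcases hchain.total hs ht with h | h
      · exact (hc ht).2 F (h hFs) G hGt hFG
      · exact (hc hs).2 F hFs G (h hGt) hFG
  obtain ⟨A, hAmax⟩ := zorn_subset S hS
  have hAS : A ∈ S := hAmax.prop
  have hAc : A.Countable := hccc A (fun F hF => (hAS.1 hF).1) hAS.2
  have hα : ∀ F : A, ∃ α : I, ∀ G, HGood a b y η G → F.1 ⊆ G → ∀ i ∈ G, i < α :=
    fun F => (hAS.1 F.2).2
  choose α hα using hα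
  have hAc' : Countable A := hAc.to_subtype
  have hIu' : ¬ (Set.univ : Set I).Countable := by
    rw [Set.countable_univ_iff]
    exact hIu
  obtain ⟨i, _, hi⟩ := exists_gt_countable hI Set.univ hIu' (Set.range α) (Set.countable_range α)
  have hsing : HGood a b y η {i} := by
    intro j hj k hk hjk
    rw [Finset.mem_singleton] at hj hk
    exact (hjk (hj.trans hk.symm)).elim
  obtain ⟨β, F, hF, hiF, hFβ⟩ := hcon {i} hsing
  have hiF' : i ∈ F := hiF (Finset.mem_singleton_self i)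
  have hFE : F ∈ E := ⟨hF, β, hFβ⟩
  have hFinc : ∀ G ∈ A, ¬ HGood a b y η (F ∪ G) := by
    intro G hG hgood
    have h1 := hα ⟨G, hG⟩ (F ∪ G) hgood Finset.subset_union_right i
      (Finset.mem_union_left _ hiF')
    have h2 := hi (α ⟨G, hG⟩) ⟨⟨G, hG⟩, rfl⟩
    exact lt_irrefl _ (h1.trans h2)
  have hins : insert F A ∈ S := by
    refine ⟨?_, ?_⟩
    · intro G hG
      rcases hG with rfl | hG
      · exact hFE
      · exact hAS.1 hG
    · intro G hG H hH hGH
      rcases hG with rfl | hG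
      · rcases hH with rfl | hH
        · exact (hGH rfl).elim
        · exact hFinc H hH
      · rcases hH with rfl | hH
        · rw [Finset.union_comm]
          exact hFinc G hG
        · exact hAS.2 G hG H hH hGH
  have hFA : F ∈ A := hAmax.le_of_ge hins (Set.subset_insert F A) (Set.mem_insert F A)
  apply hFinc F hFA
  rw [Finset.union_idempotent]
  exact hF

end HomStep

/-- The poset. -/
def HPos {K I : Type u} (a b : I → K) (y : I → K → ℝ) (η : ℝ) (p : Finset I) : Type u :=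
  {F : Finset I // (∀ i ∈ F, ∀ j ∈ F, i ≠ j → |y i (b j) - y i (a j)| < η) ∧ p ⊆ F}

instance {K I : Type u} (a b : I → K) (y : I → K → ℝ) (η : ℝ) (p : Finset I) :
    Preorder (HPos a b y η p) where
  le F G := G.1 ⊆ F.1
  le_refl F := Finset.Subset.refl _
  le_trans _ _ _ h1 h2 := Finset.Subset.trans h2 h1

theorem hom_step : Hom_Stmt.{u} := by
  intro hMA K _ _ _ hK I _ hI hIu a b y hy hab η hη
  classical
  have hccc := ccc_core hK hI a b y hy hab η hη
  obtain ⟨p, hp, hunb⟩ := exists_unbounded_cond hI hIu a b y η hccc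
  -- a subset of size aleph one
  have hle : Cardinal.aleph 1 ≤ Cardinal.mk I := by
    rw [← Cardinal.succ_aleph0]
    apply Order.succ_le_of_lt
    rw [← not_le]
    intro h
    exact hIu (Cardinal.mk_le_aleph0_iff.mp h)
  obtain ⟨I₁, hI₁⟩ := Cardinal.le_mk_iff_exists_set.mp hle
  have hI₁u : ¬ I₁.Countable := by
    intro h
    have h1 := Cardinal.mk_le_aleph0_iff.mpr h.to_subtype
    rw [hI₁] at h1
    exact absurd h1 (not_le.mpr Cardinal.aleph0_lt_aleph_one)
  let P := HPos a b y η p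
  haveI : Nonempty P := ⟨⟨p, hp, Finset.Subset.refl p⟩⟩
  let D : I → Set P := fun α => {F | ∃ i ∈ F.1, α ≤ i}
  have hcccP : CCC P := by
    intro A hA
    have h1 : (Subtype.val '' A : Set (Finset I)).Countable := by
      refine hccc _ ?_ ?_
      · rintro _ ⟨F, _, rfl⟩
        exact F.2.1
      · rintro _ ⟨F, hF, rfl⟩ _ ⟨G, hG, rfl⟩ hne hgood
        have hFG : F ≠ G := fun h => hne (by rw [h])
        apply hA F hF G hG hFG
        refine ⟨⟨F.1 ∪ G.1, hgood, ?_⟩, ?_, ?_⟩
        · exact Finset.Subset.trans F.2.2 Finset.subset_union_left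
        · exact Finset.subset_union_left
        · exact Finset.subset_union_right
    exact Set.countable_of_injective_of_countable_image
      (Subtype.val_injective.injOn) h1
  have hcard : Cardinal.mk (D '' I₁) ≤ Cardinal.aleph 1 := by
    refine (Cardinal.mk_image_le).trans ?_
    exact le_of_eq hI₁
  have hdense : ∀ E ∈ D '' I₁, DenseSet E := by
    rintro _ ⟨α, _, rfl⟩ F
    obtain ⟨G, hG, hFG, i, hi, hαi⟩ := hunb α F.1 F.2.1 F.2.2
    exact ⟨⟨G, hG, Finset.Subset.trans F.2.2 hFG⟩, ⟨i, hi, hαi⟩, hFG⟩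
  obtain ⟨G, hG, hGD⟩ := hMA P hcccP (D '' I₁) hcard hdense
  refine ⟨{i | ∃ F ∈ G, i ∈ F.1}, ?_, ?_⟩
  · intro hJ
    obtain ⟨α, hα, hαJ⟩ := exists_gt_countable hI I₁ hI₁u _ hJ
    obtain ⟨F, hFG, i, hiF, hαi⟩ := hGD (D α) ⟨α, hα, rfl⟩
    exact absurd (hαJ i ⟨F, hFG, hiF⟩) (not_lt.mpr hαi)
  · rintro i ⟨F, hF, hi⟩ j ⟨F', hF', hj⟩ hij
    obtain ⟨H, _, h1, h2⟩ := hG.directed F hF F' hF'
    exact H.2.1 i (h1 hi) j (h2 hj) hij

end Pool.Agent.CpFU
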