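import Pool.Agent.CpFU.Sys

/-! # Countable tightness of products of compact spaces -/

universe u

open Set Topology

namespace Pool.Agent.CpFU

theorem OmClosed.isClosed {X : Type u} [TopologicalSpace X] (hX : CountablyTight X) {A : Set X}
    (hA : OmClosed A) : IsClosed A := by
  rw [← closure_subset_iff_isClosed]
  intro x hx
  obtain ⟨B, hB, hBc, hxB⟩ := hX A x hx
  exact hA B hB hBc hxB

theorem omClosed_image_fst {X Y : Type u} [TopologicalSpace X] [T2Space X]
    [TopologicalSpace Y] [CompactSpace X] [CompactSpace Y] {A : Set (X × Y)}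
    (hA : OmClosed A) : OmClosed (Prod.fst '' A) := by
  intro E hE hEc
  have h1 : ∀ e ∈ E, ∃ a, a ∈ A ∧ a.1 = e := fun e he => hE he
  rcases E.eq_empty_or_nonempty with rfl | ⟨e₀, he₀⟩
  · simp
  have : Nonempty (X × Y) := ⟨(h1 e₀ he₀).choose⟩
  choose! g hg1 hg2 using h1
  have h2 : closure (g '' E) ⊆ A := by
    apply hA _ _ (hEc.image g)
    rintro _ ⟨e, he, rfl⟩
    exact hg1 e he
  have h3 : IsClosed (Prod.fst '' closure (g '' E)) :=
    (isClosed_closure.isCompact.image continuous_fst).isClosed
  have h4 : closure E ⊆ Prod.fst '' closure (g '' E) := by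
    apply closure_minimal _ h3
    intro e he
    exact ⟨g e, subset_closure ⟨e, he, rfl⟩, hg2 e he⟩
  exact h4.trans (image_mono h2)

/-- The product of two countably tight compact Hausdorff spaces is countably tight. -/
theorem tight_prod {X Y : Type u} [TopologicalSpace X] [T2Space X] [TopologicalSpace Y]
    [T2Space Y] [CompactSpace X] [CompactSpace Y] (hX : CountablyTight X)
    (hY : CountablyTight Y) : CountablyTight (X × Y) := by
  intro A p hp
  have hω := omcl_closed A
  have key : p ∈ omcl A := by
    have h1 : p.2 ∈ closure {y | (p.1, y) ∈ omcl A} := by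
      rw [mem_closure_iff_nhds]
      intro U hU
      obtain ⟨V, hV, hVc, hVU⟩ := exists_mem_nhds_isClosed_subset hU
      have h2 : OmClosed (omcl A ∩ Prod.snd ⁻¹' V) := by
        apply hω.inter
        intro E hE _
        exact closure_minimal hE (hVc.preimage continuous_snd)
      have h3 : IsClosed (Prod.fst '' (omcl A ∩ Prod.snd ⁻¹' V)) :=
        (omClosed_image_fst h2).isClosed hX
      have h4 : p.1 ∈ closure (Prod.fst '' (omcl A ∩ Prod.snd ⁻¹' V)) := by
        rw [mem_closure_iff_nhds]
        intro W hW
        obtain ⟨q, hq1, hq2⟩ := mem_closure_iff_nhds.1 hp (W ×ˢ V)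
          (prod_mem_nhds hW hV)
        exact ⟨q.1, hq1.1, q, ⟨sub_omcl A hq2, hq1.2⟩, rfl⟩
      rw [h3.closure_eq] at h4
      obtain ⟨q, ⟨hq1, hq2⟩, hq3⟩ := h4
      refine ⟨q.2, hVU hq2, ?_⟩
      have : (p.1, q.2) = q := Prod.ext hq3.symm rfl
      simpa [this] using hq1
    have h5 : OmClosed {y | (p.1, y) ∈ omcl A} := by
      intro E hE hEc y hy
      have h6 := hω ((fun y => (p.1, y)) '' E) (by
        rintro _ ⟨y, hy, rfl⟩
        exact hE hy) (hEc.image _)
      apply h6
      have h7 : Continuous (fun y : Y => (p.1, y)) := by fun_prop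
      exact image_closure_subset_closure_image h7 ⟨y, hy, rfl⟩
    have h6 := h5.isClosed hY
    rw [h6.closure_eq] at h1
    exact h1
  exact key

theorem tight_of_inducing {E F : Type u} [TopologicalSpace E] [TopologicalSpace F]
    (hF : CountablyTight F) (f : E → F) (hf : IsInducing f) : CountablyTight E := by
  intro A x hx
  rw [hf.closure_eq_preimage_closure_image] at hx
  obtain ⟨B, hB, hBc, hxB⟩ := hF _ _ hx
  have h1 : ∀ b ∈ B, ∃ a, a ∈ A ∧ f a = b := fun b hb => hB hb
  have : Nonempty E := ⟨x⟩
  choose! g hg1 hg2 using h1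
  refine ⟨g '' B, ?_, hBc.image g, ?_⟩
  · rintro _ ⟨b, hb, rfl⟩
    exact hg1 b hb
  · rw [hf.closure_eq_preimage_closure_image]
    have h2 : B ⊆ f '' (g '' B) := fun b hb => ⟨g b, ⟨b, hb, rfl⟩, hg2 b hb⟩
    exact closure_mono h2 hxB

theorem tight_pow {K : Type u} [TopologicalSpace K] [T2Space K] [CompactSpace K]
    (hK : CountablyTight K) (m : ℕ) : CountablyTight (Fin m → K × K) := by
  have hKK : CountablyTight (K × K) := tight_prod hK hK
  induction m with
  | zero =>
    intro A x hx
    have : Countable (Fin 0 → K × K) := inferInstance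
    exact ⟨A, Subset.rfl, Set.to_countable A, hx⟩
  | succ m ih =>
    have h1 : CountablyTight ((K × K) × (Fin m → K × K)) := tight_prod hKK ih
    let f : (Fin (m + 1) → K × K) → (K × K) × (Fin m → K × K) := fun x => (x 0, fun i => x i.succ)
    have hf : Continuous f := by fun_prop
    have hinj : Function.Injective f := by
      intro x y h
      funext i
      refine Fin.cases ?_ (fun j => ?_) i
      · exact congrArg Prod.fst h
      · exact congrFun (congrArg Prod.snd h) j
    exact tight_of_inducing h1 f (hf.isClosedEmbedding hinj).isInducing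

end Pool.Agent.CpFU
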