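import Pool.Agent.CpFU.PProper

/-! # `PFA` implies that compact subspaces of `C_p(Lindelof)` are countably tight -/

universe u

open Set Topology

namespace Pool.Agent.CpFU

/-- Complete accumulation points in Lindelof sets. -/
theorem exists_acc {E : Type u} [TopologicalSpace E] {Y : Set E} (hY : IsLindelof Y)
    {ι : Type u} {S : Set ι} (hS : ¬ S.Countable) (f : ι → E) (hf : ∀ i ∈ S, f i ∈ Y) :
    ∃ z ∈ Y, ∀ U ∈ 𝓝 z, ¬ {i | i ∈ S ∧ f i ∈ U}.Countable := by
  by_contra hcon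
  push Not at hcon
  choose! U hU1 hU2 using hcon
  obtain ⟨t, ht1, ht2, ht3⟩ := hY.elim_nhds_subcover U hU1
  apply hS
  refine (ht1.biUnion (fun z hz => hU2 z (ht2 z hz))).mono ?_
  intro i hi
  obtain ⟨z, hz, h⟩ := mem_iUnion₂.1 (ht3 (hf i hi))
  exact mem_iUnion₂.2 ⟨z, hz, hi, h⟩

theorem tight_aux (hPFA : PFA.{u}) (K : Type u) [TopologicalSpace K] [CompactSpace K] [T2Space K]
    (Y : Set (K → ℝ)) (hYc : ∀ y ∈ Y, Continuous y) (hYs : Sep Y) (hYL : IsLindelof Y)
    (hK : ¬ CountablyTight K) : False := by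
  classical
  obtain ⟨𝓐, xs, hS⟩ := exists_sys hK
  obtain ⟨G, hG1, hG2⟩ := exists_G hS
  let C : Ctx K := ⟨𝓐, xs, G, Y⟩
  have hC : CtxOK C := ⟨hG1, hG2, hYc, hYs⟩
  -- an index set of size `ℵ₁`
  have hKunc : ¬ Countable K := by
    intro h
    exact hK (fun A x hx => ⟨A, Subset.rfl, Set.to_countable A, hx⟩)
  obtain ⟨I, hI, e, he⟩ : ∃ (I : Type u), Cardinal.mk I = Cardinal.aleph 1 ∧
      ∃ e : I → K, e.Injective := by
    refine ⟨(Cardinal.aleph 1).out, Cardinal.mk_out _, ?_⟩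
    have h1 : Cardinal.mk (Cardinal.aleph 1).out ≤ Cardinal.mk K := by
      rw [Cardinal.mk_out]
      have h2 : Cardinal.aleph0 < Cardinal.mk K := by
        rw [← not_le, Cardinal.mk_le_aleph0_iff]
        exact hKunc
      rw [← Order.succ_le_iff, ← Cardinal.aleph_zero, Cardinal.succ_aleph] at h2
      simpa using h2
    obtain ⟨f⟩ := Cardinal.le_def _ _ |>.1 h1
    exact ⟨f, f.injective⟩
  have hIunc : ¬ Countable I := by
    rw [← Cardinal.mk_le_aleph0_iff, hI, not_le]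
    exact Cardinal.aleph0_lt_aleph_one
  obtain ⟨q₀, hq₀⟩ := unbounded hC e
  -- apply `PFA` below `q₀`
  have : Nonempty {r : PP C // r ≤ q₀} := ⟨⟨q₀, le_rfl⟩⟩
  obtain ⟨H, hH, hHD⟩ := hPFA {r : PP C // r ≤ q₀} (proper_restrict (pp_proper hC) q₀)
    (range (fun i : I => {r : {r : PP C // r ≤ q₀} | r.1 ∈ DD C (e i)}))
    (Cardinal.mk_range_le.trans hI.le) (by
      rintro _ ⟨i, rfl⟩ ⟨r, hr⟩
      obtain ⟨r', h1, h2⟩ := hq₀ r hr i
      exact ⟨⟨r', h1.trans hr⟩, h2, h1⟩)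
  let S₀ : Set (Nd K) := {n | n.β = Code.prd univ ∧ ∃ r ∈ H, n ∈ r.1.1}
  have hval : ∀ n ∈ S₀, Valid C n := by
    rintro n ⟨-, r, -, hr⟩
    exact r.1.2.1 n hr
  have hchain : ∀ n ∈ S₀, ∀ n' ∈ S₀, n ≠ n' → Rel n n' ∨ Rel n' n := by
    rintro n ⟨-, r, hr, hnr⟩ n' ⟨-, r', hr', hnr'⟩ hne
    obtain ⟨s, -, hs1, hs2⟩ := hH.directed r hr r' hr'
    have h1 : n ∈ s.1.1 := hs1 n hnr
    have h2 : n' ∈ s.1.1 := hs2 n' hnr'
    have h3 : ∀ l : List (Nd K), l.Pairwise Rel → n ∈ l → n' ∈ l → Rel n n' ∨ Rel n' n := by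
      intro l
      induction l with
      | nil => intro _ h; exact absurd h (by simp)
      | cons a l ih =>
        intro hp ha hb
        rw [List.pairwise_cons] at hp
        rcases List.mem_cons.1 ha with rfl | ha'
        · rcases List.mem_cons.1 hb with rfl | hb'
          · exact absurd rfl hne
          · exact Or.inl (hp.1 _ hb')
        · rcases List.mem_cons.1 hb with rfl | hb'
          · exact Or.inr (hp.1 _ ha')
          · exact ih hp.2 ha' hb'
    exact h3 _ s.1.2.2 h1 h2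
  have hS₀ : ¬ S₀.Countable := by
    intro hc
    have h1 : (⋃ n ∈ S₀, range n.M).Countable := hc.biUnion (fun n _ => countable_range _)
    have h2 : ∀ i : I, Code.pt (e i) ∈ ⋃ n ∈ S₀, range n.M := by
      intro i
      obtain ⟨r, hr1, n, hn1, hn2, hn3⟩ := hHD _ ⟨i, rfl⟩
      exact mem_iUnion₂.2 ⟨n, ⟨hn2, r, hr1, hn1⟩, hn3⟩
    have h3 : (univ : Set I).Countable := by
      refine (h1.preimage (f := fun i : I => Code.pt (e i)) ?_).mono (fun i _ => h2 i)
      intro i j hij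
      exact he (Code.pt.inj hij)
    exact hIunc (countable_univ_iff.1 h3)
  -- uniform rationals
  obtain ⟨c, ε, hS₁⟩ : ∃ c ε : ℚ, ¬ {n | n ∈ S₀ ∧ n.c = c ∧ n.ε = ε}.Countable := by
    by_contra hcon
    push Not at hcon
    apply hS₀
    refine (countable_iUnion (fun c : ℚ => countable_iUnion (fun ε : ℚ => hcon c ε))).mono ?_
    intro n hn
    exact mem_iUnion.2 ⟨n.c, mem_iUnion.2 ⟨n.ε, hn, rfl, rfl⟩⟩
  set S₁ : Set (Nd K) := {n | n ∈ S₀ ∧ n.c = c ∧ n.ε = ε} with hS₁def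
  -- countable initial segments
  have hinit : ∀ n ∈ S₁, {n' | n' ∈ S₁ ∧ ¬ Rel n n'}.Countable := by
    intro n hn
    have h1 : {n' : Nd K | n'.code ∈ range n.M}.Countable :=
      (countable_range n.M).preimage Nd.code_injective
    refine (h1.union (countable_singleton n)).mono ?_
    rintro n' ⟨hn', hrel⟩
    by_cases hne : n' = n
    · exact Or.inr hne
    · rcases hchain n hn.1 n' hn'.1 (Ne.symm hne) with h | h
      · exact absurd h hrel
      · exact Or.inl h.1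
  have hrel1 : ∀ n ∈ S₁, ∀ n' ∈ S₁, Rel n n' → |n'.y n.x - c| < ε := by
    intro n hn n' hn' h
    have h1 : n.x ∈ n'.W := h.2 (by rw [hn'.1.1]; exact (hval n hn.1).cl.top)
    have h2 : |n'.y n.x - n'.c| < n'.ε := h1
    rw [hn'.2.1, hn'.2.2] at h2
    exact h2
  have hrel2 : ∀ n ∈ S₁, ∀ n' ∈ S₁, Rel n n' → n.y n'.x = n.y xs := by
    intro n hn n' hn' h
    by_contra hne
    have hv := hval n' hn'.1
    have h1 : Code.prd (off xs n.y) ∈ range n'.M := hv.cl.nd3 n h.1
    have h2 : Pos 𝓐 (one (off xs n.y)) := hv.pt.neg _ h1 ⟨n'.x, rfl, hne⟩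
    obtain ⟨A, hA, hAz⟩ := hS.eqs n.y (hYc _ (hval n hn.1).yY)
    obtain ⟨z, hz1, hz2⟩ := h2 A hA
    obtain ⟨z', hz', hz''⟩ := hz1
    have : z = z' := by simpa using hz'
    subst this
    exact hz'' (hAz z hz2)
  have hfar : ∀ n ∈ S₁, 2 * (ε : ℝ) ≤ |n.y xs - c| := by
    intro n hn
    have h1 := (hval n hn.1).far
    rw [hn.2.1, hn.2.2] at h1
    exact h1
  have hεpos : (0 : ℝ) < ε := by
    have h1 : S₁.Nonempty := by
      rw [nonempty_iff_ne_empty]
      intro h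
      exact hS₁ (h ▸ countable_empty)
    obtain ⟨n, hn⟩ := h1
    have := (hval n hn.1).εpos
    rw [hn.2.2] at this
    exact_mod_cast this
  -- the two complete accumulation points
  obtain ⟨z, hzY, hz⟩ := exists_acc hYL hS₁ (fun n => n.y) (fun n hn => (hval n hn.1).yY)
  obtain ⟨k, -, hk⟩ := exists_acc (isLindelof_univ (X := K)) hS₁ (fun n => n.x)
    (fun n _ => mem_univ _)
  have hzc : Continuous z := hYc z hzY
  have h1 : ∀ n ∈ S₁, |z n.x - c| ≤ ε := by
    intro n hn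
    by_contra hcon
    push Not at hcon
    have hO : IsOpen {f : K → ℝ | (ε : ℝ) < |f n.x - c|} :=
      isOpen_lt continuous_const (by fun_prop)
    have hU := hO.mem_nhds (show z ∈ {f : K → ℝ | (ε : ℝ) < |f n.x - c|} from hcon)
    apply hz _ hU
    refine (hinit n hn).mono ?_
    rintro n' ⟨hn', h2⟩
    refine ⟨hn', fun h3 => ?_⟩
    have h4 := hrel1 n hn n' hn' h3
    exact absurd h2 (not_lt.2 h4.le)
  have h2 : |z k - c| ≤ ε := by
    by_contra hcon
    push Not at hcon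
    have hO : IsOpen {x : K | (ε : ℝ) < |z x - c|} :=
      isOpen_lt continuous_const (by fun_prop)
    have hU := hO.mem_nhds (show k ∈ {x : K | (ε : ℝ) < |z x - c|} from hcon)
    apply hk _ hU
    refine countable_empty.mono ?_
    rintro n ⟨hn, h3⟩
    exact absurd h3 (not_lt.2 (h1 n hn))
  have h3 : ∀ n ∈ S₁, 2 * (ε : ℝ) ≤ |n.y k - c| := by
    intro n hn
    by_contra hcon
    push Not at hcon
    have hnc : Continuous n.y := hYc _ (hval n hn.1).yY
    have hO : IsOpen {x : K | |n.y x - c| < 2 * (ε : ℝ)} :=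
      isOpen_lt (by fun_prop) continuous_const
    have hU := hO.mem_nhds (show k ∈ {x : K | |n.y x - c| < 2 * (ε : ℝ)} from hcon)
    apply hk _ hU
    refine (hinit n hn).mono ?_
    rintro n' ⟨hn', h4⟩
    refine ⟨hn', fun h5 => ?_⟩
    have h6 := hrel2 n hn n' hn' h5
    have h7 : |n.y n'.x - c| < 2 * (ε : ℝ) := h4
    rw [h6] at h7
    exact absurd h7 (not_lt.2 (hfar n hn))
  have h4 : 2 * (ε : ℝ) ≤ |z k - c| := by
    by_contra hcon
    push Not at hcon
    have hO : IsOpen {f : K → ℝ | |f k - c| < 2 * (ε : ℝ)} :=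
      isOpen_lt (by fun_prop) continuous_const
    have hU := hO.mem_nhds (show z ∈ {f : K → ℝ | |f k - c| < 2 * (ε : ℝ)} from hcon)
    apply hz _ hU
    refine countable_empty.mono ?_
    rintro n ⟨hn, h5⟩
    exact absurd h5 (not_lt.2 (h3 n hn))
  linarith

/-- `PFA` implies that a compact space with a Lindelof separating set of continuous functions is
countably tight. -/
theorem tight_of_pfa (hPFA : PFA.{u}) : TightCore.{u} := by
  intro K _ _ _ Y h1 h2 h3
  by_contra hK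
  exact tight_aux hPFA K Y h1 h2 h3 hK

end Pool.Agent.CpFU
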