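import Pool.Agent.CpFU.Baturov
import Pool.Agent.CpFU.Disc
import Pool.Agent.CpFU.Hom
import Pool.Agent.CpFU.Tight
import Pool.Agent.CpFU.Prod

/-! # Duality and assembly -/

universe u

open Set Topology

namespace Pool.Agent.CpFU

section General

theorem ce_image {E F : Type u} [TopologicalSpace E] [T1Space E] [TopologicalSpace F] {Y : Set E}
    (hY : CE Y) (f : E → F) (hf : Continuous f) : CE (f '' Y) := by
  intro D hD hacc
  have h1 : ∀ d ∈ D, ∃ y, y ∈ Y ∧ f y = d := fun d hd => hD hd
  rcases D.eq_empty_or_nonempty with rfl | ⟨d₀, hd₀⟩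
  · exact countable_empty
  have : Nonempty E := ⟨(h1 d₀ hd₀).choose⟩
  choose! g hg1 hg2 using h1
  have h2 : (g '' D).Countable := by
    apply hY
    · rintro _ ⟨d, hd, rfl⟩
      exact hg1 d hd
    · intro z hz
      obtain ⟨V, hV, hVD⟩ := hacc (f z) ⟨z, hz, rfl⟩
      have hV' := hf.continuousAt.preimage_mem_nhds hV
      by_cases hne : z = g (f z)
      · refine ⟨f ⁻¹' V, hV', ?_⟩
        rintro _ ⟨hw, d, hd, rfl⟩
        have h3 : f (g d) ∈ V ∩ D := ⟨hw, by rw [hg2 d hd]; exact hd⟩
        have h4 : d = f z := by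
          have := hVD h3
          rwa [hg2 d hd, mem_singleton_iff] at this
        rw [mem_singleton_iff, h4]
        exact hne.symm
      · refine ⟨f ⁻¹' V ∩ {g (f z)}ᶜ, Filter.inter_mem hV' (compl_singleton_mem_nhds hne), ?_⟩
        rintro _ ⟨⟨hw, hw'⟩, d, hd, rfl⟩
        have h3 : f (g d) ∈ V ∩ D := ⟨hw, by rw [hg2 d hd]; exact hd⟩
        have h4 : d = f z := by
          have := hVD h3
          rwa [hg2 d hd, mem_singleton_iff] at this
        exact absurd (by rw [h4]; rfl : g d ∈ ({g (f z)} : Set E)) hw'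
  refine (h2.image f).mono ?_
  intro d hd
  exact ⟨g d, ⟨d, hd, rfl⟩, hg2 d hd⟩

theorem ce_univ {X : Type u} [TopologicalSpace X] (hX : CountableExtent X) :
    CE (univ : Set X) := by
  intro D _ hacc
  apply hX
  · rw [← isOpen_compl_iff, isOpen_iff_mem_nhds]
    intro z hz
    obtain ⟨V, hV, hVD⟩ := hacc z (mem_univ z)
    filter_upwards [hV] with w hw hwD
    have := hVD ⟨hw, hwD⟩
    rw [mem_singleton_iff] at this
    exact hz (this ▸ hwD)
  · rw [discreteTopology_subtype_iff']
    intro z hz
    obtain ⟨V, hV, hVD⟩ := hacc z (mem_univ z)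
    obtain ⟨U, hUV, hU, hzU⟩ := mem_nhds_iff.1 hV
    refine ⟨U, hU, ?_⟩
    apply Subset.antisymm
    · exact fun w hw => hVD ⟨hUV hw.1, hw.2⟩
    · rintro w rfl
      exact ⟨hzU, hz⟩

end General

section Duality

variable {X : Type u} [TopologicalSpace X]

theorem cp_inducing : IsInducing (fun f : Cp X => (f.1 : X → ℝ)) := ⟨rfl⟩

theorem cp_eval_continuous (x : X) : Continuous (fun f : Cp X => f.1 x) :=
  (continuous_apply x).comp cp_inducing.continuous

instance : T2Space (Cp X) := by
  have h : Function.Injective (fun f : Cp X => (f.1 : X → ℝ)) := fun f g h => Subtype.ext h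
  exact T2Space.of_injective_continuous h cp_inducing.continuous

/-- The evaluation map. -/
def ev (K : Set (Cp X)) (x : X) : K → ℝ := fun f => f.1.1 x

theorem ev_continuous (K : Set (Cp X)) : Continuous (ev K) := by
  rw [continuous_pi_iff]
  intro f
  exact f.1.2

theorem ev_apply_continuous (K : Set (Cp X)) (x : X) : Continuous (ev K x) :=
  (cp_eval_continuous x).comp continuous_subtype_val

theorem ev_sep (K : Set (Cp X)) : Sep (range (ev K)) := by
  intro f g h
  apply Subtype.ext
  apply Subtype.ext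
  funext x
  exact h _ ⟨x, rfl⟩

theorem tight_of_core (h : TightCore.{u}) : TightStatement.{u} := by
  intro Y _ _ _ K hK
  have : CompactSpace K := isCompact_iff_compactSpace.1 hK
  refine h K (range (ev K)) ?_ (ev_sep K) ?_
  · rintro _ ⟨x, rfl⟩
    exact ev_apply_continuous K x
  · rw [← image_univ]
    exact isLindelof_univ.image (ev_continuous K)

theorem core_of_tight (h : TightStatement.{u}) : TightCore.{u} := by
  intro K _ _ _ Y hYc hYs hYL
  have : LindelofSpace Y := isLindelof_iff_lindelofSpace.1 hYL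
  let e : K → Cp Y := fun k => ⟨fun y => y.1 k, (continuous_apply k).comp continuous_subtype_val⟩
  have he : Continuous e := by
    rw [cp_inducing.continuous_iff]
    rw [continuous_pi_iff]
    intro y
    exact hYc y.1 y.2
  have hinj : Function.Injective e := by
    intro a b hab
    apply hYs
    intro y hy
    have := congrArg (fun f : Cp Y => f.1 ⟨y, hy⟩) hab
    exact this
  have hemb : IsClosedEmbedding e := he.isClosedEmbedding hinj
  have hcomp : IsCompact (range e) := isCompact_range he
  have h1 : CountablyTight (range e) := h Y (range e) hcomp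
  refine tight_of_inducing h1 (fun k => (⟨e k, ⟨k, rfl⟩⟩ : range e)) ?_
  have h2 : IsInducing (Subtype.val ∘ (fun k => (⟨e k, ⟨k, rfl⟩⟩ : range e))) :=
    hemb.isInducing
  exact (IsInducing.of_comp_iff IsInducing.subtypeVal).1 h2

theorem tight_of_frechet (h : FrechetStatement.{u}) : TightStatement.{u} := by
  intro Y _ _ _ K hK
  have hext : CountableExtent Y := by
    intro D hD hdisc
    have h1 : LindelofSpace D := isLindelof_iff_lindelofSpace.1 hD.isLindelof
    exact countable_coe_iff.1 (countable_of_Lindelof_of_discrete (X := D))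
  have hFU := h Y hext K hK
  intro A x hx
  obtain ⟨s, hs1, hs2⟩ := mem_closure_iff_seq_limit.1 hx
  refine ⟨range s, ?_, countable_range s, ?_⟩
  · rintro _ ⟨n, rfl⟩
    exact hs1 n
  · exact mem_closure_of_tendsto hs2 (Filter.Eventually.of_forall (fun n => ⟨n, rfl⟩))

end Duality

section Metrizable

/-- The transfinite recursion. -/
theorem exists_seq {K : Type u} (Y : Set (K → ℝ)) (hYs : Sep Y)
    (h : ∀ N ⊆ Y, N.Countable → ¬ Sep N) (I : Type u) [LinearOrder I] [WellFoundedLT I]
    (hI : ∀ i : I, (Iic i).Countable) :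
    ∃ (a b : I → K) (y : I → K → ℝ), (∀ i, y i ∈ Y) ∧ (∀ i j, j < i → y j (a i) = y j (b i)) ∧
      ∀ i, y i (a i) < y i (b i) := by
  classical
  have step0 : ∀ N : Set (K → ℝ), N ⊆ Y → N.Countable → ∃ t : K × K × (K → ℝ), t.2.2 ∈ Y ∧
      (∀ y ∈ N, y t.1 = y t.2.1) ∧ t.2.2 t.1 < t.2.2 t.2.1 := by
    intro N hN hNc
    have h1 := h N hN hNc
    unfold Sep at h1
    push Not at h1
    obtain ⟨a, b, hab, hne⟩ := h1
    have h2 : ∃ y ∈ Y, y a ≠ y b := by
      by_contra hcon
      push Not at hcon
      exact hne (hYs a b hcon)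
    obtain ⟨y, hy, hy'⟩ := h2
    rcases lt_or_gt_of_ne hy' with h3 | h3
    · exact ⟨(a, b, y), hy, hab, h3⟩
    · exact ⟨(b, a, y), hy, fun z hz => (hab z hz).symm, h3⟩
  have step : ∀ N : Set (K → ℝ), ∃ t : K × K × (K → ℝ), t.2.2 ∈ Y ∧ t.2.2 t.1 < t.2.2 t.2.1 ∧
      (N ⊆ Y → N.Countable → ∀ y ∈ N, y t.1 = y t.2.1) := by
    intro N
    by_cases hN : N ⊆ Y ∧ N.Countable
    · obtain ⟨t, h1, h2, h3⟩ := step0 N hN.1 hN.2
      exact ⟨t, h1, h3, fun _ _ => h2⟩
    · obtain ⟨t, h1, -, h3⟩ := step0 ∅ (empty_subset _) countable_empty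
      exact ⟨t, h1, h3, fun h4 h5 => absurd ⟨h4, h5⟩ hN⟩
  choose F hF1 hF2 hF3 using step
  let t : I → K × K × (K → ℝ) := WellFounded.fix (wellFounded_lt (α := I))
    (fun i rec => F {y | ∃ j, ∃ h : j < i, y = (rec j h).2.2})
  have ht : ∀ i, t i = F {y | ∃ j, ∃ _ : j < i, y = (t j).2.2} := by
    intro i
    exact WellFounded.fix_eq _ _ i
  refine ⟨fun i => (t i).1, fun i => (t i).2.1, fun i => (t i).2.2, ?_, ?_, ?_⟩
  · intro i
    simp only
    rw [ht i]
    exact hF1 _
  · intro i j hji
    have h1 := hF3 {y | ∃ j, ∃ _ : j < i, y = (t j).2.2} (by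
      rintro _ ⟨k, -, rfl⟩
      rw [ht k]
      exact hF1 _) (by
      refine ((hI i).image (fun j => (t j).2.2)).mono ?_
      rintro _ ⟨k, hk, rfl⟩
      exact ⟨k, hk.le, rfl⟩) (t j).2.2 ⟨j, hji, rfl⟩
    rw [← ht i] at h1
    exact h1
  · intro i
    simp only
    rw [ht i]
    exact hF2 _

/-- Main step: under `MA`, for separable `K` a countable subset of `Y` separates points. -/
theorem countable_sep (hMA : MAω₁.{u}) (K : Type u) [TopologicalSpace K] [CompactSpace K]
    [T2Space K] [TopologicalSpace.SeparableSpace K] (Y : Set (K → ℝ))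
    (hYc : ∀ y ∈ Y, Continuous y) (hYs : Sep Y) (hCE : CE Y)
    (hpow : ∀ m : ℕ, CountablyTight (Fin m → K × K)) :
    ∃ N ⊆ Y, N.Countable ∧ Sep N := by
  classical
  by_contra hcon
  push Not at hcon
  let I : Type u := (Cardinal.aleph.{u} 1).ord.ToType
  have hIcard : Cardinal.mk I = Cardinal.aleph 1 := by
    simp [I]
  have hIunc : ¬ Countable I := by
    rw [← Cardinal.mk_le_aleph0_iff, hIcard, not_le]
    exact Cardinal.aleph0_lt_aleph_one
  have hIio : ∀ i : I, (Iio i).Countable := by
    intro i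
    have h1 : Cardinal.mk (Iio i) < Cardinal.aleph 1 := Cardinal.mk_Iio_toType_ord_lt i
    exact (Cardinal.countable_iff_lt_aleph_one _).2 h1
  have hIic : ∀ i : I, (Iic i).Countable := by
    intro i
    refine ((hIio i).union (countable_singleton i)).mono ?_
    intro j hj
    rcases lt_or_eq_of_le (mem_Iic.1 hj) with h | h
    · exact Or.inl h
    · exact Or.inr h
  obtain ⟨a, b, y, hyY, hyeq, hylt⟩ := exists_seq Y hYs hcon I hIic
  obtain ⟨n, hn⟩ : ∃ n : ℕ, ¬ {i : I | 1 / ((n : ℝ) + 1) < y i (b i) - y i (a i)}.Countable := by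
    by_contra hc
    push Not at hc
    apply hIunc
    rw [← countable_univ_iff]
    refine (countable_iUnion hc).mono ?_
    intro i _
    obtain ⟨n, hn⟩ := exists_nat_one_div_lt (sub_pos.2 (hylt i))
    exact mem_iUnion.2 ⟨n, hn⟩
  set η : ℝ := 1 / ((n : ℝ) + 1) with hη
  have hηpos : 0 < η := by positivity
  let I₀ : Set I := {i : I | η < y i (b i) - y i (a i)}
  have hI₀ : ¬ Countable I₀ := fun h => hn (countable_coe_iff.1 h)
  obtain ⟨J, hJ, hJ2⟩ := hom_step hMA K hpow I₀
    (fun i => (hIic i.1).preimage_of_injOn (f := Subtype.val) Subtype.val_injective.injOn)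
    hI₀ (fun i => a i.1) (fun i => b i.1) (fun i => y i.1) (fun i => hYc _ (hyY i.1))
    (fun i j hji => hyeq i.1 j.1 hji) (η / 2) (by positivity)
  have hJcard : Cardinal.mk J = Cardinal.aleph 1 := by
    apply le_antisymm
    · refine (Cardinal.mk_le_of_injective (f := fun j : J => (j.1.1 : I)) ?_).trans hIcard.le
      intro i j hij
      exact Subtype.ext (Subtype.ext hij)
    · have h1 : Cardinal.aleph0 < Cardinal.mk J := by
        rw [← not_le, Cardinal.mk_le_aleph0_iff]
        exact fun h => hJ (countable_coe_iff.1 h)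
      rw [← Order.succ_le_iff, ← Cardinal.aleph_zero, Cardinal.succ_aleph] at h1
      simpa using h1
  exact disc hMA K Y hYc hCE J hJcard (fun j => a j.1.1) (fun j => b j.1.1) (fun j => y j.1.1)
    (fun j => hyY _) η hηpos
    (fun i j hij => hJ2 i.1 i.2 j.1 j.2 (fun h => hij (Subtype.ext h)))
    (fun j => j.1.2)

/-- Under `MA`, closures of countable subsets of countably tight compact `K ⊆ C_p(X)`, `X` of
countable extent, are metrizable. -/
theorem metrizable_of_tight (hMA : MAω₁.{u}) (X : Type u) [TopologicalSpace X]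
    [T35Space X] (hX : CountableExtent X) (K : Set (Cp X)) (hK : IsCompact K) (htight : CountablyTight K)
    (B : Set K) (hBc : B.Countable) : TopologicalSpace.MetrizableSpace (closure B) := by
  classical
  have : CompactSpace K := isCompact_iff_compactSpace.1 hK
  have hCE : CE (range (ev K)) := by
    rw [← image_univ]
    exact ce_image (ce_univ hX) _ (ev_continuous K)
  have hc : ∀ y ∈ range (ev K), Continuous y := by
    rintro _ ⟨x, rfl⟩
    exact ev_apply_continuous K x
  let K₀ : Set K := closure B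
  have : CompactSpace K₀ := isCompact_iff_compactSpace.1 isClosed_closure.isCompact
  have hdense : ∀ k : K₀, k ∈ closure (Subtype.val ⁻¹' B : Set K₀) := by
    intro k
    rw [closure_subtype, Subtype.image_preimage_coe, inter_eq_self_of_subset_right subset_closure]
    exact k.2
  have : TopologicalSpace.SeparableSpace K₀ :=
    ⟨⟨Subtype.val ⁻¹' B, hBc.preimage Subtype.val_injective, hdense⟩⟩
  let res : (K → ℝ) → (K₀ → ℝ) := fun y k => y k.1
  have hres : Continuous res := continuous_pi_iff.2 (fun k => continuous_apply k.1)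
  let Y₀ : Set (K₀ → ℝ) := res '' (range (ev K))
  have hY₀c : ∀ y ∈ Y₀, Continuous y := by
    rintro _ ⟨y, hy, rfl⟩
    exact (hc y hy).comp continuous_subtype_val
  have hY₀s : Sep Y₀ := by
    intro k l h
    apply Subtype.ext
    apply ev_sep K
    intro y hy
    exact h (res y) ⟨y, hy, rfl⟩
  have hY₀CE : CE Y₀ := ce_image hCE res hres
  have htight₀ : CountablyTight K₀ :=
    tight_of_inducing htight Subtype.val IsInducing.subtypeVal
  obtain ⟨N, hN, hNc, hNs⟩ := countable_sep hMA K₀ Y₀ hY₀c hY₀s hY₀CE (tight_pow htight₀)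
  have : Countable N := hNc.to_subtype
  let e : K₀ → (N → ℝ) := fun k y => y.1 k
  have he : Continuous e := continuous_pi_iff.2 (fun y => hY₀c y.1 (hN y.2))
  have hinj : Function.Injective e := by
    intro k l h
    apply hNs
    intro y hy
    exact congrFun h ⟨y, hy⟩
  have hemb : IsClosedEmbedding e := he.isClosedEmbedding hinj
  exact hemb.isEmbedding.metrizableSpace

theorem frechet_of_tight (hMA : MAω₁.{u}) (X : Type u) [TopologicalSpace X]
    [T35Space X] (hX : CountableExtent X) (K : Set (Cp X)) (hK : IsCompact K) (htight : CountablyTight K) :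
    FrechetUrysohnSpace K := by
  refine ⟨fun s x hx => ?_⟩
  obtain ⟨B, hBs, hBc, hxB⟩ := htight s x hx
  have h0 : TopologicalSpace.MetrizableSpace (closure B) :=
    metrizable_of_tight hMA X hX K hK htight B hBc
  have h1 : FirstCountableTopology (closure B) := by
    let := TopologicalSpace.metrizableSpaceMetric (closure B)
    infer_instance
  have hdense : ∀ k : closure B, k ∈ closure (Subtype.val ⁻¹' B : Set (closure B)) := by
    intro k
    rw [closure_subtype, Subtype.image_preimage_coe, inter_eq_self_of_subset_right subset_closure]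
    exact k.2
  obtain ⟨u, hu1, hu2⟩ := mem_closure_iff_seq_limit.1 (hdense ⟨x, hxB⟩)
  exact ⟨fun n => (u n).1, fun n => hBs (hu1 n), (continuous_subtype_val.tendsto _).comp hu2⟩

theorem frechet_of (hMA : MAω₁.{u}) (hT : TightCore.{u}) : FrechetStatement.{u} := by
  intro X _ _ hX K hK
  have : CompactSpace K := isCompact_iff_compactSpace.1 hK
  have hCE : CE (range (ev K)) := by
    rw [← image_univ]
    exact ce_image (ce_univ hX) _ (ev_continuous K)
  have hc : ∀ y ∈ range (ev K), Continuous y := by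
    rintro _ ⟨x, rfl⟩
    exact ev_apply_continuous K x
  exact frechet_of_tight hMA X hX K hK (hT K _ hc (ev_sep K) (baturov K _ hc hCE))

end Metrizable

/-- The assembled theorem. -/
theorem main : (PFA.{u} → FrechetStatement.{u}) ∧
    (MAω₁.{u} → (FrechetStatement.{u} ↔ TightStatement.{u})) ∧
    (MAω₁.{u} → ∀ (X : Type u) [TopologicalSpace X] [T35Space X], CountableExtent X →
      ∀ K : Set (Cp X), IsCompact K → CountablyTight K →
        FrechetUrysohnSpace K ∧ ∀ B : Set K, B.Countable →
          TopologicalSpace.MetrizableSpace (closure B)) :=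
  ⟨fun h => frechet_of (pfa_ma h) (tight_of_pfa h),
    fun h => ⟨tight_of_frechet, fun hT => frechet_of h (core_of_tight hT)⟩,
    fun h X _ _ hX K hK ht => ⟨frechet_of_tight h X hX K hK ht,
      fun B hB => metrizable_of_tight h X hX K hK ht B hB⟩⟩

end Pool.Agent.CpFU
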