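import Pool.Agent.CpFU.Core

/-!
# Baturov's theorem for compact spaces (`MP_435463_gt`, module A)

If `K` is compact and `Y` is a set of continuous functions on `K` with countable extent in the
pointwise topology, then `Y` is Lindelof.
-/

universe u v

open Set Topology Filter

namespace Pool.Agent.CpFU

namespace Bat

variable {K : Type u} {ι : Type v}

/-- Subbasic sets defined by the functions of `N`. -/
def G (N : Set (K → ℝ)) : Set (Set K) :=
  {S | ∃ f ∈ N, ∃ ρ : ℚ, ∃ m : ℕ, S = {a | |f a - ρ| < 1 / ((m : ℝ) + 1)}}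

lemma G_countable {N : Set (K → ℝ)} (h : N.Countable) : (G N).Countable := by
  have : G N = ⋃ f ∈ N, ⋃ ρ : ℚ, ⋃ m : ℕ, {{a | |f a - ρ| < 1 / ((m : ℝ) + 1)}} := by
    ext S
    simp only [G, mem_ofPred_eq, mem_iUnion, mem_singleton_iff, exists_prop]
  rw [this]
  exact h.biUnion fun f _ => countable_iUnion fun ρ => countable_iUnion fun m =>
    countable_singleton _

lemma G_mono {N N' : Set (K → ℝ)} (h : N ⊆ N') : G N ⊆ G N' := by
  rintro S ⟨f, hf, r⟩
  exact ⟨f, h hf, r⟩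

/-- Basic sets defined by the functions of `N`. -/
def W (N : Set (K → ℝ)) : Set (Set K) := sInter '' {t | t.Finite ∧ t ⊆ G N}

lemma W_countable {N : Set (K → ℝ)} (h : N.Countable) : (W N).Countable :=
  (Set.countable_ofPred_finite_subset (G_countable h)).image _

lemma W_mono {N N' : Set (K → ℝ)} (h : N ⊆ N') : W N ⊆ W N' := by
  rintro S ⟨t, ⟨h1, h2⟩, rfl⟩
  exact ⟨t, ⟨h1, h2.trans (G_mono h)⟩, rfl⟩

/-- `U i` is a witness for the data `w, q, n`. -/
def IsWit (Y : Set (K → ℝ)) (U : ι → Set (K → ℝ)) (k : ℕ) (w : Fin k → Set K) (q : Fin k → ℚ)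
    (n : ℕ) (i : ι) : Prop :=
  ∃ y : K → ℝ, ∃ x : Fin k → K, (∀ j, x j ∈ w j) ∧
    (∀ j, ∀ a ∈ w j, |y a - q j| ≤ 2 / ((n : ℝ) + 1)) ∧
    ∀ z ∈ Y, (∀ j, |z (x j) - y (x j)| < 5 / ((n : ℝ) + 1)) → z ∈ U i

open Classical in
/-- The chosen member of the cover (as a set). -/
noncomputable def V (Y : Set (K → ℝ)) (U : ι → Set (K → ℝ)) (k : ℕ) (w : Fin k → Set K)
    (q : Fin k → ℚ) (n : ℕ) : Set (K → ℝ) :=
  if h : ∃ i, IsWit Y U k w q n i then U h.choose else ∅

lemma V_open {Y : Set (K → ℝ)} {U : ι → Set (K → ℝ)} (hU : ∀ i, IsOpen (U i)) (k : ℕ)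
    (w : Fin k → Set K) (q : Fin k → ℚ) (n : ℕ) : IsOpen (V Y U k w q n) := by
  unfold V
  split_ifs
  · exact hU _
  · exact isOpen_empty

/-- All chosen sets with data from `N`. -/
def Us (Y : Set (K → ℝ)) (U : ι → Set (K → ℝ)) (N : Set (K → ℝ)) : Set (K → ℝ) :=
  {z | ∃ k, ∃ w : Fin k → Set K, ∃ q n, (∀ j, w j ∈ W N) ∧ z ∈ V Y U k w q n}

lemma Us_mono {Y : Set (K → ℝ)} {U : ι → Set (K → ℝ)} {N N' : Set (K → ℝ)} (h : N ⊆ N') :
    Us Y U N ⊆ Us Y U N' := by
  rintro z ⟨k, w, q, n, h1, h2⟩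
  exact ⟨k, w, q, n, fun j => W_mono h (h1 j), h2⟩

/-- If there is no countable subcover then `Y` is not covered by `Us N`, `N` countable. -/
lemma exists_not_mem {Y : Set (K → ℝ)} {U : ι → Set (K → ℝ)}
    (hno : ∀ t : Set ι, t.Countable → ¬ Y ⊆ ⋃ i ∈ t, U i) {N : Set (K → ℝ)} (hN : N.Countable) :
    ∃ z ∈ Y, z ∉ Us Y U N := by
  classical
  by_contra hcon
  push Not at hcon
  have hc : Countable (W N) := (W_countable hN).to_subtype
  let E := Σ k : ℕ, (Fin k → ↥(W N)) × (Fin k → ℚ) × ℕ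
  have hE : Countable E := inferInstance
  let T : Set ι := {i | ∃ e : E, ∃ h : ∃ i, IsWit Y U e.1 (fun j => (e.2.1 j : Set K)) e.2.2.1
    e.2.2.2 i, i = h.choose}
  have hT : T.Countable := by
    have : T = ⋃ e : E, {i | ∃ h : ∃ i, IsWit Y U e.1 (fun j => (e.2.1 j : Set K)) e.2.2.1
        e.2.2.2 i, i = h.choose} := by
      ext i
      simp [T]
    rw [this]
    refine countable_iUnion fun e => Set.Subsingleton.countable ?_
    rintro i ⟨h, rfl⟩ i' ⟨h', rfl⟩
    rfl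
  refine hno T hT fun z hz => ?_
  obtain ⟨k, w, q, n, h1, h2⟩ := hcon z hz
  unfold V at h2
  split_ifs at h2 with h
  · refine mem_biUnion (x := h.choose) ?_ h2
    exact ⟨⟨k, fun j => ⟨w j, h1 j⟩, q, n⟩, h, rfl⟩
  · exact absurd h2 (by simp)

variable [TopologicalSpace K]

lemma star [CompactSpace K] {Y : Set (K → ℝ)} {U : ι → Set (K → ℝ)} (hY : ∀ y ∈ Y, Continuous y)
    (hU : ∀ i, IsOpen (U i)) (hYU : Y ⊆ ⋃ i, U i) {N : Set (K → ℝ)} (hN : N ⊆ Y) {z : K → ℝ}
    (hz : z ∈ Y) (hzN : z ∈ closure N) :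
    ∃ F ⊆ N, F.Finite ∧ ∃ k, ∃ w : Fin k → Set K, ∃ q n, (∀ j, w j ∈ W F) ∧
      z ∈ V Y U k w q n := by
  classical
  obtain ⟨i, hi⟩ := mem_iUnion.1 (hYU hz)
  -- a basic neighbourhood of `z` in `U i`
  obtain ⟨I, u, hu, huU⟩ := isOpen_pi_iff.1 (hU i) z hi
  have hn : ∃ n : ℕ, ∀ a ∈ I, ∀ t : ℝ, |t - z a| < 5 / ((n : ℝ) + 1) → t ∈ u a := by
    have hlim : Tendsto (fun n : ℕ => (5 : ℝ) / ((n : ℝ) + 1)) atTop (𝓝 0) := by
      have := tendsto_one_div_add_atTop_nhds_zero_nat (𝕜 := ℝ)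
      have h2 := this.const_mul (5 : ℝ)
      simpa [div_eq_mul_inv] using h2
    have : ∀ a ∈ I, ∀ᶠ n : ℕ in atTop, ∀ t : ℝ, |t - z a| < 5 / ((n : ℝ) + 1) → t ∈ u a := by
      intro a ha
      obtain ⟨ε, hε, hεu⟩ := Metric.isOpen_iff.1 (hu a ha).1 (z a) (hu a ha).2
      filter_upwards [hlim.eventually_lt_const hε] with n hn t ht
      apply hεu
      rw [Metric.mem_ball, Real.dist_eq]
      exact ht.trans hn
    exact ((Filter.eventually_all_finset I).2 this).exists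
  obtain ⟨n, hn⟩ := hn
  have hn0 : (0 : ℝ) < (n : ℝ) + 1 := by positivity
  set δ : ℝ := 1 / ((n : ℝ) + 1) with hδ
  have hδ0 : 0 < δ := by positivity
  -- compactness
  let C : Set (K × K) := {p | δ ≤ |z p.1 - z p.2|}
  have hzc := hY z hz
  have hC : IsCompact C := by
    apply IsClosed.isCompact
    exact isClosed_le continuous_const (((hzc.comp continuous_fst).sub
      (hzc.comp continuous_snd)).abs)
  let O : ↥N → Set (K × K) := fun f => {p | δ / 2 < |f.1 p.1 - f.1 p.2|}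
  have hO : ∀ f, IsOpen (O f) := by
    intro f
    have hf := hY f.1 (hN f.2)
    exact isOpen_lt continuous_const (((hf.comp continuous_fst).sub
      (hf.comp continuous_snd)).abs)
  have hCO : C ⊆ ⋃ f, O f := by
    rintro ⟨a, b⟩ hab
    have hab' : δ ≤ |z a - z b| := hab
    have hopen : IsOpen ({g : K → ℝ | |g a - z a| < δ / 4} ∩ {g : K → ℝ | |g b - z b| < δ / 4}) := by
      apply IsOpen.inter
      · exact isOpen_lt (((continuous_apply a).sub continuous_const).abs) continuous_const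
      · exact isOpen_lt (((continuous_apply b).sub continuous_const).abs) continuous_const
    have hmem : z ∈ ({g : K → ℝ | |g a - z a| < δ / 4} ∩ {g : K → ℝ | |g b - z b| < δ / 4}) := by
      constructor <;> simp [hδ0]
    obtain ⟨f, ⟨hf1, hf2⟩, hfN⟩ := mem_closure_iff.1 hzN _ hopen hmem
    refine mem_iUnion.2 ⟨⟨f, hfN⟩, ?_⟩
    show δ / 2 < |f a - f b|
    have hf1' : |f a - z a| < δ / 4 := hf1
    have hf2' : |f b - z b| < δ / 4 := hf2
    rw [abs_lt] at hf1' hf2'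
    rcases le_abs.1 hab' with h | h
    · exact lt_abs.2 (Or.inl (by linarith))
    · exact lt_abs.2 (Or.inr (by linarith))
  obtain ⟨t, ht⟩ := hC.elim_finite_subcover O hO hCO
  let F : Set (K → ℝ) := Subtype.val '' (t : Set ↥N)
  have hFN : F ⊆ N := by
    rintro _ ⟨f, -, rfl⟩
    exact f.2
  have hFfin : F.Finite := t.finite_toSet.image _
  -- the data
  have hm : (0 : ℝ) < 1 / (((4 * n + 3 : ℕ) : ℝ) + 1) := by positivity
  have hmδ : (1 : ℝ) / (((4 * n + 3 : ℕ) : ℝ) + 1) = δ / 4 := by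
    rw [hδ]
    push_cast
    field_simp
    ring
  choose ρ hρ using fun (f : K → ℝ) (a : K) => exists_rat_near (f a) hm
  choose q hq using fun (a : K) => exists_rat_near (z a) hδ0
  let w : K → Set K := fun x =>
    ⋂₀ ((fun f : K → ℝ => {a | |f a - ρ f x| < 1 / (((4 * n + 3 : ℕ) : ℝ) + 1)}) '' F)
  have hwW : ∀ x, w x ∈ W F := by
    intro x
    refine ⟨_, ⟨hFfin.image _, ?_⟩, rfl⟩
    rintro _ ⟨f, hf, rfl⟩
    exact ⟨f, hf, ρ f x, 4 * n + 3, rfl⟩
  have hxw : ∀ x, x ∈ w x := by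
    intro x
    rintro _ ⟨f, hf, rfl⟩
    exact hρ f x
  have hzw : ∀ x, ∀ a ∈ w x, |z a - z x| < δ := by
    intro x a ha
    by_contra hcon
    push Not at hcon
    have hC' : (a, x) ∈ C := hcon
    obtain ⟨f, hft, hf⟩ := mem_iUnion₂.1 (ht hC')
    have hf' : δ / 2 < |f.1 a - f.1 x| := hf
    have h1 : |f.1 a - ρ f.1 x| < δ / 4 := by
      rw [← hmδ]
      exact ha _ ⟨f.1, ⟨f, hft, rfl⟩, rfl⟩
    have h2 : |f.1 x - ρ f.1 x| < δ / 4 := by
      rw [← hmδ]
      exact hρ f.1 x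
    have h3 : |f.1 a - f.1 x| ≤ |f.1 a - ρ f.1 x| + |f.1 x - ρ f.1 x| := by
      have := abs_sub_le (f.1 a) (ρ f.1 x : ℝ) (f.1 x)
      rwa [abs_sub_comm (ρ f.1 x : ℝ) (f.1 x)] at this
    linarith
  have hqw : ∀ x, ∀ a ∈ w x, |z a - q x| < 2 * δ := by
    intro x a ha
    have h1 := hzw x a ha
    have h2 := hq x
    have h3 := abs_sub_le (z a) (z x) (q x : ℝ)
    linarith
  let x : Fin I.card → K := fun j => ((I.equivFin.symm j : ↥I) : K)
  have h2δ : 2 * δ = 2 / ((n : ℝ) + 1) := by rw [hδ]; ring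
  have hwit : ∃ i, IsWit Y U I.card (fun j => w (x j)) (fun j => q (x j)) n i := by
    refine ⟨i, z, x, fun j => hxw _, fun j a ha => ?_, fun z' hz' hz'' => ?_⟩
    · rw [← h2δ]
      exact (hqw _ a ha).le
    · apply huU
      intro a ha
      apply hn a ha
      have := hz'' (I.equivFin ⟨a, ha⟩)
      simpa [x] using this
  refine ⟨F, hFN, hFfin, I.card, fun j => w (x j), fun j => q (x j), n, fun j => hwW _, ?_⟩
  unfold V
  rw [dif_pos hwit]
  obtain ⟨y', x', h1, h2, h3⟩ := hwit.choose_spec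
  apply h3 z hz
  intro j
  have e1 := h2 j (x' j) (h1 j)
  have e2 := hqw (x j) (x' j) (h1 j)
  have e3 := abs_sub_le (z (x' j)) (q (x j) : ℝ) (y' (x' j))
  rw [abs_sub_comm (q (x j) : ℝ) (y' (x' j))] at e3
  have e4 : (5 : ℝ) / ((n : ℝ) + 1) = 5 * δ := by rw [hδ]; ring
  rw [e4]
  rw [← h2δ] at e1
  linarith

end Bat

open Bat in
theorem baturov : Baturov_Stmt.{u} := by
  intro K _ _ _ Y hYc hCE
  apply isLindelof_of_countable_subcover
  intro ι U hUo hYU
  by_contra hno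
  push Not at hno
  have hex : ∀ N : Set (K → ℝ), ∃ z : K → ℝ, N.Countable → z ∈ Y ∧ z ∉ Us Y U N := by
    intro N
    by_cases hN : N.Countable
    · obtain ⟨z, h1, h2⟩ := exists_not_mem hno hN
      exact ⟨z, fun _ => ⟨h1, h2⟩⟩
    · exact ⟨0, fun h => absurd h hN⟩
  choose c hc using hex
  let I : Type := (Cardinal.aleph.{0} 1).ord.ToType
  have hIcount : ∀ a : I, (Iio a).Countable := by
    intro a
    rw [Cardinal.countable_iff_lt_aleph_one]
    exact Cardinal.mk_Iio_toType_ord_lt a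
  have hIunc : ¬ Countable I := by
    intro h
    have := Cardinal.mk_le_aleph0_iff.2 h
    rw [Cardinal.mk_ord_toType] at this
    exact absurd this (not_le.2 Cardinal.aleph0_lt_aleph_one)
  let y : I → (K → ℝ) := (IsWellFounded.wf (r := ((· < ·) : I → I → Prop))).fix
    (fun a ih => c (range fun b : Iio a => ih b.1 b.2))
  have hy : ∀ a, y a = c (y '' Iio a) := by
    intro a
    have : y a = c (range fun b : Iio a => y b.1) := WellFounded.fix_eq _ _ _
    rw [this, image_eq_range]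
  have hyN : ∀ a, (y '' Iio a).Countable := fun a => (hIcount a).image _
  have hyY : ∀ a, y a ∈ Y := fun a => by rw [hy]; exact (hc _ (hyN a)).1
  have hyU : ∀ a, y a ∉ Us Y U (y '' Iio a) := fun a h => (hc _ (hyN a)).2 (by rwa [hy] at h)
  have hsub : ∀ s : Set I, y '' s ⊆ Y := by
    rintro s _ ⟨a, -, rfl⟩
    exact hyY a
  -- members of the closure of `y '' s`
  have key : ∀ (s : Set I) (z : K → ℝ), z ∈ Y → z ∈ closure (y '' s) →
      ∃ F : Set I, F.Finite ∧ F ⊆ s ∧ ∃ V : Set (K → ℝ), IsOpen V ∧ z ∈ V ∧ V ⊆ Us Y U (y '' F) := by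
    intro s z hz hzs
    obtain ⟨F, hF, hFfin, k, w, q, n, h1, h2⟩ := star hYc hUo hYU (hsub s) hz hzs
    obtain ⟨F', hF's, hF'fin, hF'⟩ : ∃ F' ⊆ s, F'.Finite ∧ y '' F' = F := by
      obtain ⟨F', hF's, hF'fin, hF'⟩ := (Set.exists_subset_image_finite_and).1 ⟨F, hF, hFfin, rfl⟩
      exact ⟨F', hF's, hF'fin, hF'.symm⟩
    subst hF'
    exact ⟨F', hF'fin, hF's, V Y U k w q n, V_open hUo _ _ _ _, h2,
      fun z' hz' => ⟨k, w, q, n, h1, hz'⟩⟩
  have hmiss : ∀ (F : Set I) (a : I), (∀ b ∈ F, b < a) → y a ∉ Us Y U (y '' F) := by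
    intro F a hFa h
    exact hyU a (Us_mono (image_mono hFa) h)
  have hinj : Function.Injective y := by
    intro a b hab
    by_contra hne
    wlog hlt : a < b generalizing a b
    · exact this hab.symm (Ne.symm hne) (lt_of_le_of_ne (not_lt.1 hlt) (Ne.symm hne))
    obtain ⟨F, -, hFs, V, -, hV1, hV2⟩ := key {a} (y a) (hyY a)
      (subset_closure ⟨a, rfl, rfl⟩)
    apply hmiss F b (fun x hx => by rw [hFs hx]; exact hlt)
    rw [← hab]
    exact hV2 hV1
  have hunc : ¬ (range y).Countable := by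
    intro h
    apply hIunc
    rw [← Set.countable_univ_iff]
    rw [← image_univ] at h
    exact (Set.countable_of_injective_of_countable_image hinj.injOn h)
  apply hunc
  apply hCE _ (by rintro _ ⟨a, rfl⟩; exact hyY a)
  intro z hz
  by_cases hzD : z ∈ closure (range y)
  swap
  · refine ⟨(closure (range y))ᶜ, isClosed_closure.isOpen_compl.mem_nhds hzD, ?_⟩
    rintro x ⟨hx1, hx2⟩
    exact absurd (subset_closure hx2) hx1
  -- `z` is in the closure of an initial segment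
  have hred : ∀ s : Set I, z ∈ closure (y '' s) → ∃ F : Set I, F.Finite ∧ F ⊆ s ∧
      z ∈ closure (y '' {b | ¬ ∀ x ∈ F, x < b}) := by
    intro s hs
    obtain ⟨F, hF, hFs, V, hVo, hzV, hVU⟩ := key s z hz hs
    refine ⟨F, hF, hFs, ?_⟩
    rw [mem_closure_iff]
    intro o ho hzo
    obtain ⟨x, ⟨hx1, hx2⟩, ⟨b, rfl⟩⟩ := mem_closure_iff.1 hzD (o ∩ V) (ho.inter hVo) ⟨hzo, hzV⟩
    exact ⟨y b, hx1, b, fun h => hmiss F b h (hVU hx2), rfl⟩
  have hred2 : ∀ s : Set I, z ∈ closure (y '' s) → ∃ a ∈ s, z ∈ closure (y '' Iic a) := by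
    intro s hs
    obtain ⟨F, hF, hFs, h⟩ := hred s hs
    rcases F.eq_empty_or_nonempty with rfl | hne
    · simp at h
    obtain ⟨m, hm, hmax⟩ := hF.exists_maximal hne
    refine ⟨m, hFs hm, closure_mono (image_mono ?_) h⟩
    intro b hb
    by_contra hbm
    apply hb
    intro x hx
    rcases le_total x m with h' | h'
    · exact lt_of_le_of_lt h' (not_le.1 hbm)
    · exact lt_of_le_of_lt (hmax hx h') (not_le.1 hbm)
  have hne : {a : I | z ∈ closure (y '' Iic a)}.Nonempty := by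
    obtain ⟨a, -, ha⟩ := hred2 univ (by rwa [image_univ])
    exact ⟨a, ha⟩
  obtain ⟨a, ha, hamin⟩ : ∃ a, z ∈ closure (y '' Iic a) ∧ ∀ b < a, z ∉ closure (y '' Iic b) := by
    let wf := (IsWellFounded.wf (r := ((· < ·) : I → I → Prop)))
    exact ⟨wf.min _ hne, wf.min_mem _ hne, fun b hb h => wf.not_lt_min _ h hb⟩
  have hnot : z ∉ closure (y '' Iio a) := by
    intro h
    obtain ⟨b, hb, hb'⟩ := hred2 _ h
    exact hamin b hb hb'
  have hza : z = y a := by
    have : Iic a = insert a (Iio a) := by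
      ext x; simp [le_iff_eq_or_lt]
    rw [this, image_insert_eq, insert_eq, closure_union, closure_singleton] at ha
    rcases ha with h | h
    · exact h
    · exact absurd h hnot
  obtain ⟨F, hF, hFs, V, hVo, hzV, hVU⟩ := key (Iic a) z hz ha
  refine ⟨V ∩ (closure (y '' Iio a))ᶜ, (hVo.inter isClosed_closure.isOpen_compl).mem_nhds
    ⟨hzV, hnot⟩, ?_⟩
  rintro _ ⟨⟨hx1, hx2⟩, ⟨b, rfl⟩⟩
  rcases lt_trichotomy b a with h | h | h
  · exact absurd (subset_closure (mem_image_of_mem y (show b ∈ Iio a from h))) hx2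
  · rw [h, mem_singleton_iff, hza]
  · exact absurd (hVU hx1) (hmiss F b fun x hx => lt_of_le_of_lt (hFs hx) h)

end Pool.Agent.CpFU
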