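import Pool.Agent.CpFU.Core

/-! # Countable closed sets, properness and its permanence -/

universe u v

open Set

namespace Pool.Agent.CpFU

section Closure
variable {Z : Type u}

/-- Iterated closure of `S` under `F`. -/
def itc (F : List Z → Set Z) (S : Set Z) : ℕ → Set Z
  | 0 => S
  | n + 1 => itc F S n ∪ ⋃ l ∈ {l : List Z | ∀ z ∈ l, z ∈ itc F S n}, F l

theorem countable_lists {S : Set Z} (hS : S.Countable) :
    {l : List Z | ∀ z ∈ l, z ∈ S}.Countable := by
  have : Countable S := hS.to_subtype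
  refine (Set.countable_range (fun l : List S => l.map Subtype.val)).mono ?_
  intro l hl
  refine ⟨l.pmap (fun z hz => ⟨z, hz⟩) hl, ?_⟩
  simp [List.map_pmap]

theorem itc_countable {F : List Z → Set Z} (hF : ∀ l, (F l).Countable) {S : Set Z}
    (hS : S.Countable) (n : ℕ) : (itc F S n).Countable := by
  induction n with
  | zero => exact hS
  | succ n ih =>
    exact ih.union ((countable_lists ih).biUnion (fun l _ => hF l))

theorem itc_mono {F : List Z → Set Z} {S : Set Z} {m n : ℕ} (h : m ≤ n) :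
    itc F S m ⊆ itc F S n := by
  induction h with
  | refl => exact Subset.rfl
  | step _ ih => exact ih.trans subset_union_left

theorem itc_mono_set {F : List Z → Set Z} {S T : Set Z} (h : S ⊆ T) (n : ℕ) :
    itc F S n ⊆ itc F T n := by
  induction n with
  | zero => exact h
  | succ n ih =>
    apply union_subset_union ih
    intro z hz
    simp only [mem_iUnion] at hz ⊢
    obtain ⟨l, hl, hz⟩ := hz
    exact ⟨l, fun w hw => ih (hl w hw), hz⟩

/-- The closure of `S` under `F`. -/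
def clo (F : List Z → Set Z) (S : Set Z) : Set Z := ⋃ n, itc F S n

theorem clo_sub (F : List Z → Set Z) (S : Set Z) : S ⊆ clo F S :=
  fun _ hz => mem_iUnion.2 ⟨0, hz⟩

theorem clo_countable {F : List Z → Set Z} (hF : ∀ l, (F l).Countable) {S : Set Z}
    (hS : S.Countable) : (clo F S).Countable :=
  countable_iUnion (fun n => itc_countable hF hS n)

theorem clo_mem_list {F : List Z → Set Z} {S : Set Z} (l : List Z)
    (hl : ∀ z ∈ l, z ∈ clo F S) : ∃ n, ∀ z ∈ l, z ∈ itc F S n := by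
  induction l with
  | nil => exact ⟨0, by simp⟩
  | cons a l ih =>
    obtain ⟨n, hn⟩ := ih (fun z hz => hl z (List.mem_cons_of_mem _ hz))
    obtain ⟨m, hm⟩ := mem_iUnion.1 (hl a List.mem_cons_self)
    refine ⟨max m n, ?_⟩
    intro z hz
    rcases List.mem_cons.1 hz with rfl | hz
    · exact itc_mono (le_max_left _ _) hm
    · exact itc_mono (le_max_right _ _) (hn z hz)

theorem clo_closed (F : List Z → Set Z) (S : Set Z) (l : List Z)
    (hl : ∀ z ∈ l, z ∈ clo F S) : F l ⊆ clo F S := by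
  obtain ⟨n, hn⟩ := clo_mem_list l hl
  intro z hz
  refine mem_iUnion.2 ⟨n + 1, Or.inr ?_⟩
  simp only [mem_iUnion]
  exact ⟨l, hn, hz⟩

theorem itc_finitary {F : List Z → Set Z} {S : Set Z} (n : ℕ) :
    ∀ z ∈ itc F S n, ∃ l : List Z, (∀ w ∈ l, w ∈ S) ∧ z ∈ itc F {w | w ∈ l} n := by
  induction n with
  | zero =>
    intro z hz
    have hz' : z ∈ S := hz
    exact ⟨[z], by simpa using hz', by simp [itc]⟩
  | succ n ih =>
    intro z hz
    rcases hz with hz | hz
    · obtain ⟨l, h1, h2⟩ := ih z hz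
      exact ⟨l, h1, Or.inl h2⟩
    · simp only [mem_iUnion] at hz
      obtain ⟨l, hl, hz⟩ := hz
      have key : ∀ l : List Z, (∀ z ∈ l, z ∈ itc F S n) →
          ∃ l' : List Z, (∀ w ∈ l', w ∈ S) ∧ ∀ z ∈ l, z ∈ itc F {w | w ∈ l'} n := by
        intro l
        induction l with
        | nil => intro _; exact ⟨[], by simp, by simp⟩
        | cons a l ihl =>
          intro h
          obtain ⟨l1, h1, h2⟩ := ihl (fun z hz => h z (List.mem_cons_of_mem _ hz))
          obtain ⟨l2, h3, h4⟩ := ih a (h a List.mem_cons_self)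
          refine ⟨l1 ++ l2, ?_, ?_⟩
          · intro w hw
            rcases List.mem_append.1 hw with hw | hw
            · exact h1 w hw
            · exact h3 w hw
          · intro z hz
            rcases List.mem_cons.1 hz with rfl | hz
            · exact itc_mono_set (fun w hw => List.mem_append.2 (Or.inr hw)) n h4
            · exact itc_mono_set (fun w hw => List.mem_append.2 (Or.inl hw)) n (h2 z hz)
      obtain ⟨l', h1, h2⟩ := key l hl
      refine ⟨l', h1, Or.inr ?_⟩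
      simp only [mem_iUnion]
      exact ⟨l, h2, hz⟩

theorem clo_finitary {F : List Z → Set Z} {S : Set Z} {z : Z} (hz : z ∈ clo F S) :
    ∃ l : List Z, (∀ w ∈ l, w ∈ S) ∧ z ∈ clo F {w | w ∈ l} := by
  obtain ⟨n, hn⟩ := mem_iUnion.1 hz
  obtain ⟨l, h1, h2⟩ := itc_finitary n z hn
  exact ⟨l, h1, mem_iUnion.2 ⟨n, h2⟩⟩

end Closure

section Proper

/-- Properness may be tested on a larger set `Z` containing `P` and mapping the dense sets. -/
theorem proper_of_big {P : Type u} [Preorder P] {Z : Type u} (i : P → Z) (hi : i.Injective)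
    (j : Set P → Z) (F : List Z → Set Z) (hF : ∀ l, (F l).Countable)
    (h : ∀ M : Set Z, M.Countable → (∀ l, (∀ z ∈ l, z ∈ M) → F l ⊆ M) →
      ∀ p, i p ∈ M → ∃ q ≤ p, ∀ D : Set P, j D ∈ M → DenseSet D →
        ∀ r ≤ q, ∃ d ∈ D, i d ∈ M ∧ Compat r d) : Proper P := by
  let g : P ⊕ Set P → Z := Sum.elim i j
  refine ⟨fun l => {z | ∃ p, z = Sum.inl p ∧ i p ∈ clo F {w | w ∈ l.map g}}, ?_, ?_⟩
  · intro l
    have h1 : (clo F {w | w ∈ l.map g}).Countable :=
      clo_countable hF (Set.Finite.countable (List.finite_toSet _))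
    have h2 : (i ⁻¹' (clo F {w | w ∈ l.map g})).Countable := h1.preimage hi
    refine (h2.image Sum.inl).mono ?_
    rintro z ⟨p, rfl, hp⟩
    exact ⟨p, hp, rfl⟩
  · intro M hM hcl p hp
    have hfin : ∀ z ∈ clo F (g '' M), ∃ l : List (P ⊕ Set P), (∀ w ∈ l, w ∈ M) ∧
        z ∈ clo F {w | w ∈ l.map g} := by
      intro z hz
      obtain ⟨l, h1, h2⟩ := clo_finitary hz
      choose! f hf1 hf2 using h1
      refine ⟨l.map f, ?_, ?_⟩
      · intro w hw
        obtain ⟨w', hw', rfl⟩ := List.mem_map.1 hw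
        exact hf1 w' hw'
      · have : (l.map f).map g = l := by
          rw [List.map_map]
          conv_rhs => rw [← List.map_id l]
          exact List.map_congr_left (fun w hw => hf2 w hw)
        rw [this]
        exact h2
    obtain ⟨q, hq, hgen⟩ := h (clo F (g '' M)) (clo_countable hF (hM.image g))
      (fun l hl => clo_closed F _ l hl) p (clo_sub F _ ⟨_, hp, rfl⟩)
    refine ⟨q, hq, ?_⟩
    intro D hD hdense r hr
    obtain ⟨d, hd, hdM, hc⟩ := hgen D (clo_sub F _ ⟨_, hD, rfl⟩) hdense r hr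
    refine ⟨d, hd, ?_, hc⟩
    obtain ⟨l, h1, h2⟩ := hfin _ hdM
    exact hcl l h1 ⟨d, rfl, h2⟩

/-- Properness passes to the conditions below a given one. -/
theorem proper_restrict {P : Type u} [Preorder P] (hP : Proper P) (q₀ : P) :
    Proper {r : P // r ≤ q₀} := by
  obtain ⟨F, hF, h⟩ := hP
  refine proper_of_big (Z := P ⊕ Set P) (fun p => Sum.inl p.1)
    (fun a b hab => Subtype.ext (Sum.inl.inj hab))
    (fun D => Sum.inr {r | (∃ h : r ≤ q₀, (⟨r, h⟩ : {r : P // r ≤ q₀}) ∈ D) ∨ ¬ Compat r q₀})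
    F hF ?_
  intro M hM hcl p hp
  obtain ⟨q, hq, hgen⟩ := h M hM hcl p.1 hp
  refine ⟨⟨q, hq.trans p.2⟩, hq, ?_⟩
  intro D hD hdense r hr
  have hdense' : DenseSet {r : P | (∃ h : r ≤ q₀, (⟨r, h⟩ : {r : P // r ≤ q₀}) ∈ D) ∨
      ¬ Compat r q₀} := by
    intro a
    by_cases ha : Compat a q₀
    · obtain ⟨b, hb1, hb2⟩ := ha
      obtain ⟨c, hc1, hc2⟩ := hdense ⟨b, hb2⟩
      exact ⟨c.1, Or.inl ⟨c.2, hc1⟩, le_trans (show c.1 ≤ b from hc2) hb1⟩
    · exact ⟨a, Or.inr ha, le_rfl⟩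
  obtain ⟨d, hd, hdM, e, he1, he2⟩ := hgen _ hD hdense' r.1 hr
  rcases hd with ⟨hd1, hd2⟩ | hd
  · exact ⟨⟨d, hd1⟩, hd2, hdM, ⟨e, he1.trans r.2⟩, he1, he2⟩
  · exact absurd ⟨e, he2, he1.trans r.2⟩ hd

/-- Inside a dense set there is a maximal antichain; it is predense. -/
theorem exists_antichain {P : Type u} [Preorder P] (D : Set P) (hD : DenseSet D) :
    ∃ A ⊆ D, (∀ p ∈ A, ∀ q ∈ A, p ≠ q → ¬ Compat p q) ∧ ∀ r, ∃ a ∈ A, Compat r a := by
  obtain ⟨A, hA⟩ := zorn_subset {A : Set P | A ⊆ D ∧ ∀ p ∈ A, ∀ q ∈ A, p ≠ q → ¬ Compat p q} (by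
    intro c hc hchain
    refine ⟨⋃₀ c, ⟨sUnion_subset (fun s hs => (hc hs).1), ?_⟩, fun s hs => subset_sUnion_of_mem hs⟩
    rintro p ⟨s, hs, hp⟩ q ⟨t, ht, hq⟩ hne
    rcases hchain.total hs ht with h | h
    · exact (hc ht).2 p (h hp) q hq hne
    · exact (hc hs).2 p hp q (h hq) hne)
  refine ⟨A, hA.prop.1, hA.prop.2, ?_⟩
  intro r
  by_contra hcon
  push Not at hcon
  obtain ⟨d, hd, hdr⟩ := hD r
  have hnd : ∀ a ∈ A, ¬ Compat d a := by
    rintro a ha ⟨e, he1, he2⟩
    exact hcon a ha ⟨e, he1.trans hdr, he2⟩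
  have h1 : insert d A ∈ {A : Set P | A ⊆ D ∧ ∀ p ∈ A, ∀ q ∈ A, p ≠ q → ¬ Compat p q} := by
    refine ⟨insert_subset hd hA.prop.1, ?_⟩
    rintro p (rfl | hp) q (rfl | hq) hne
    · exact absurd rfl hne
    · exact hnd q hq
    · rintro ⟨e, he1, he2⟩
      exact hnd p hp ⟨e, he2, he1⟩
    · exact hA.prop.2 p hp q hq hne
  have h2 : d ∈ A := hA.le_of_ge h1 (subset_insert _ _) (mem_insert _ _)
  exact hnd d h2 ⟨d, le_rfl, le_rfl⟩

theorem ccc_proper {P : Type u} [Preorder P] (h : CCC P) : Proper P := by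
  classical
  choose A hA1 hA2 hA3 using fun (D : Set P) (hD : DenseSet D) => exists_antichain D hD
  refine ⟨fun l => {z | ∃ D, ∃ hD : DenseSet D, Sum.inr D ∈ l ∧ ∃ a ∈ A D hD, z = Sum.inl a},
    ?_, ?_⟩
  · intro l
    have : {z : P ⊕ Set P | ∃ D, ∃ hD : DenseSet D, Sum.inr D ∈ l ∧ ∃ a ∈ A D hD, z = Sum.inl a}
        ⊆ ⋃ w ∈ {w | w ∈ l}, {z | ∃ D, ∃ hD : DenseSet D, Sum.inr D = w ∧
          ∃ a ∈ A D hD, z = Sum.inl a} := by
      rintro z ⟨D, hD, hl, a, ha, rfl⟩
      simp only [mem_iUnion]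
      exact ⟨Sum.inr D, hl, D, hD, rfl, a, ha, rfl⟩
    refine Set.Countable.mono this ((List.finite_toSet l).countable.biUnion ?_)
    intro w _
    rcases w with p | D
    · refine Set.Countable.mono ?_ countable_empty
      rintro z ⟨D, hD, h, _⟩
      cases h
    · by_cases hD : DenseSet D
      · refine Set.Countable.mono ?_ ((h (A D hD) (hA2 D hD)).image Sum.inl)
        rintro z ⟨D', hD', h, a, ha, rfl⟩
        cases h
        exact ⟨a, ha, rfl⟩
      · refine Set.Countable.mono ?_ countable_empty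
        rintro z ⟨D', hD', h, _⟩
        cases h
        exact absurd hD' hD
  · intro M _ hcl p _
    refine ⟨p, le_rfl, ?_⟩
    intro D hD hdense r _
    obtain ⟨a, ha, hc⟩ := hA3 D hdense r
    refine ⟨a, hA1 D hdense ha, ?_, hc⟩
    exact hcl [Sum.inr D] (by simpa using hD) ⟨D, hdense, by simp, a, ha, rfl⟩

/-- `PFA` implies `MA` for `ℵ₁` dense sets. -/
theorem pfa_ma (h : PFA.{u}) : MAω₁.{u} :=
  fun P _ _ hP 𝒟 h1 h2 => h P (ccc_proper hP) 𝒟 h1 h2

end Proper

end Pool.Agent.CpFU
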