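import Pool.Agent.CpFU.Sys

/-! # Codes for side conditions: closed countable sets of codes and their points -/

universe u

open Set Topology

namespace Pool.Agent.CpFU

/-- Codes: predicates on finite sequences of points, points, and nodes (a countable set of codes
given as the range of a function on `ℕ`, a code, a point, a function, two rationals). -/
inductive Code (K : Type u) : Type u
  | prd : Set (List K) → Code K
  | pt : K → Code K
  | nd : (ℕ → Code K) → Code K → K → (K → ℝ) → ℚ → ℚ → Code K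

/-- Nodes. -/
structure Nd (K : Type u) where
  M : ℕ → Code K
  β : Code K
  x : K
  y : K → ℝ
  c : ℚ
  ε : ℚ

/-- The code of a node. -/
def Nd.code {K : Type u} (n : Nd K) : Code K := Code.nd n.M n.β n.x n.y n.c n.ε

theorem Nd.code_injective {K : Type u} : Function.Injective (Nd.code (K := K)) := by
  rintro ⟨M, β, x, y, c, ε⟩ ⟨M', β', x', y', c', ε'⟩ h
  simp only [Nd.code, Code.nd.injEq] at h
  obtain ⟨rfl, rfl, rfl, rfl, rfl, rfl⟩ := h
  rfl

theorem Nd.code_notMem_aux {K : Type u} (a : Code K) :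
    ∀ n : Nd K, a = n.code → a ∉ range n.M := by
  induction a with
  | prd T => intro n h; cases h
  | pt z => intro n h; cases h
  | nd M β x y c ε ih _ =>
    rintro ⟨M', β', x', y', c', ε'⟩ h
    simp only [Nd.code, Code.nd.injEq] at h
    obtain ⟨rfl, rfl, rfl, rfl, rfl, rfl⟩ := h
    rintro ⟨k, hk⟩
    exact ih k ⟨M, β, x, y, c, ε⟩ hk ⟨k, rfl⟩

theorem Nd.code_notMem {K : Type u} (n : Nd K) : n.code ∉ range n.M :=
  Nd.code_notMem_aux _ n rfl

variable {K : Type u}

/-- The set of points given by the sequences of length one in `T`. -/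
def one (T : Set (List K)) : Set K := {z | [z] ∈ T}

/-- `T` with one quantifier added. -/
def plus (𝓐 : Set (Set K)) (T : Set (List K)) : Set (List K) :=
  {l | Pos 𝓐 {z | l ++ [z] ∈ T}}

/-- The section of `T` at `v`. -/
def sect (T : Set (List K)) (v : List K) : Set (List K) := {l | v ++ l ∈ T}

/-- The sequences of length one on which `y` differs from its value at `xs`. -/
def off (xs : K) (y : K → ℝ) : Set (List K) := {l | ∃ z, l = [z] ∧ y z ≠ y xs}

/-- Closed sets of codes. `G` is the function choosing countably many points for each finite list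
of codes. -/
structure Cl (𝓐 : Set (Set K)) (xs : K) (G : List (Code K) → Set K) (M : Set (Code K)) :
    Prop where
  top : Code.prd univ ∈ M
  nd1 : ∀ n : Nd K, n.code ∈ M → range n.M ⊆ M
  nd2 : ∀ n : Nd K, n.code ∈ M → Code.pt n.x ∈ M
  nd3 : ∀ n : Nd K, n.code ∈ M → Code.prd (off xs n.y) ∈ M
  sec : ∀ T, Code.prd T ∈ M → ∀ z, Code.pt z ∈ M → Code.prd (sect T [z]) ∈ M
  pls : ∀ T, Code.prd T ∈ M → Code.prd (plus 𝓐 T) ∈ M
  gen : ∀ l : List (Code K), (∀ c ∈ l, c ∈ M) → ∀ z ∈ G l, Code.pt z ∈ M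

theorem Cl.secs {𝓐 : Set (Set K)} {xs : K} {G : List (Code K) → Set K} {M : Set (Code K)}
    (h : Cl 𝓐 xs G M) (v : List K) : ∀ T, Code.prd T ∈ M → (∀ z ∈ v, Code.pt z ∈ M) →
      Code.prd (sect T v) ∈ M := by
  induction v with
  | nil => intro T hT _; simpa [sect] using hT
  | cons a v ih =>
    intro T hT hv
    have h1 := ih (sect T [a]) (h.sec T hT a (hv a List.mem_cons_self))
      (fun z hz => hv z (List.mem_cons_of_mem _ hz))
    have h2 : sect (sect T [a]) v = sect T (a :: v) := by
      ext l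
      simp [sect]
    rwa [h2] at h1

/-- The one step closure function on lists of codes. -/
def Fc1 (𝓐 : Set (Set K)) (xs : K) : List (Code K) → Set (Code K)
  | [Code.nd M _ x y _ _] => range M ∪ {Code.pt x, Code.prd (off xs y)}
  | [Code.prd T] => {Code.prd (plus 𝓐 T)}
  | [Code.prd T, Code.pt z] => {Code.prd (sect T [z])}
  | _ => ∅

/-- The closure function on lists of codes. -/
def Fc (𝓐 : Set (Set K)) (xs : K) (G : List (Code K) → Set K) (l : List (Code K)) :
    Set (Code K) := Fc1 𝓐 xs l ∪ ({Code.prd univ} ∪ Code.pt '' (G l))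

theorem Fc_countable (𝓐 : Set (Set K)) (xs : K) (G : List (Code K) → Set K)
    (hG : ∀ l, (G l).Countable) (l : List (Code K)) : (Fc 𝓐 xs G l).Countable := by
  refine Countable.union ?_ ((countable_singleton _).union ((hG l).image _))
  unfold Fc1
  split
  · exact (countable_range _).union (Set.Finite.countable (by simp))
  · exact countable_singleton _
  · exact countable_singleton _
  · exact countable_empty

theorem Cl_of_Fc {𝓐 : Set (Set K)} {xs : K} {G : List (Code K) → Set K} {M : Set (Code K)}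
    (h : ∀ l, (∀ c ∈ l, c ∈ M) → Fc 𝓐 xs G l ⊆ M) : Cl 𝓐 xs G M := by
  constructor
  · exact h [] (by simp) (Or.inr (Or.inl rfl))
  · intro n hn c hc
    exact h [n.code] (by simpa using hn) (Or.inl (Or.inl hc))
  · intro n hn
    exact h [n.code] (by simpa using hn) (Or.inl (Or.inr (Or.inl rfl)))
  · intro n hn
    exact h [n.code] (by simpa using hn) (Or.inl (Or.inr (Or.inr rfl)))
  · intro T hT z hz
    refine h [Code.prd T, Code.pt z] ?_ (Or.inl rfl)
    intro c hc
    simp only [List.mem_cons, List.not_mem_nil, or_false] at hc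
    rcases hc with rfl | rfl
    · exact hT
    · exact hz
  · intro T hT
    exact h [Code.prd T] (by simpa using hT) (Or.inl rfl)
  · intro l hl z hz
    exact h l hl (Or.inr (Or.inr ⟨z, hz, rfl⟩))

/-- What the point `x` of a closed countable set `M` of codes satisfies. -/
structure Pt [TopologicalSpace K] (𝓐 : Set (Set K)) (M : Set (Code K)) (x : K) : Prop where
  neg : ∀ T, Code.prd T ∈ M → [x] ∈ T → Pos 𝓐 (one T)
  pos : ∀ T, Code.prd T ∈ M → Pos 𝓐 (one T) → x ∈ closure {z | [z] ∈ T ∧ Code.pt z ∈ M}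

/-- For a suitable `G` every countable closed set of codes has a point. -/
theorem exists_G [TopologicalSpace K] [CompactSpace K] {𝓐 : Set (Set K)} {xs : K} (hS : Sys 𝓐 xs) :
    ∃ G : List (Code K) → Set K, (∀ l, (G l).Countable) ∧
      ∀ M : Set (Code K), M.Countable → Cl 𝓐 xs G M → ∃ x, x ≠ xs ∧ Pt 𝓐 M x := by
  classical
  -- the sets `B T`
  have hB : ∀ T : Set (List K), ∃ A ∈ 𝓐, (Pos 𝓐 (one T) → ∀ z ∈ A, ∃ E ⊆ one T, E.Countable ∧
      z ∈ closure E) ∧ (¬ Pos 𝓐 (one T) → A ∩ one T = ∅) := by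
    intro T
    by_cases hT : Pos 𝓐 (one T)
    · obtain ⟨A, hA, h⟩ := hS.pos _ hT
      exact ⟨A, hA, fun _ => h, fun h' => absurd hT h'⟩
    · have hT' := hT
      unfold Pos at hT'
      push Not at hT'
      obtain ⟨A, hA, h⟩ := hT'
      refine ⟨A, hA, fun h' => absurd h' hT, fun _ => ?_⟩
      rw [inter_comm]
      exact h
  choose B hB1 hB2 hB3 using hB
  -- the points
  have hz : ∀ l : List (Code K), ∃ z, ∀ T, Code.prd T ∈ l → z ∈ B T := by
    intro l
    let f : ℕ → Set K := fun n => match l[n]? with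
      | some (Code.prd T) => B T
      | _ => B univ
    have hf : ∀ n, f n ∈ 𝓐 := by
      intro n
      simp only [f]
      split
      · exact hB1 _
      · exact hB1 _
    obtain ⟨z, hz⟩ := hS.ne _ (hS.inter f hf)
    refine ⟨z, ?_⟩
    intro T hT
    obtain ⟨n, hn, h⟩ := List.mem_iff_getElem.1 hT
    have h1 := mem_iInter.1 hz n
    have h2 : l[n]? = some (Code.prd T) := by
      rw [List.getElem?_eq_getElem hn, h]
    simp only [f, h2] at h1
    exact h1
  choose zz hzz using hz
  have hE : ∀ (l : List (Code K)) (T : Set (List K)), ∃ E : Set K, E.Countable ∧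
      (Code.prd T ∈ l → Pos 𝓐 (one T) → E ⊆ one T ∧ zz l ∈ closure E) := by
    intro l T
    by_cases h : Code.prd T ∈ l ∧ Pos 𝓐 (one T)
    · obtain ⟨E, h1, h2, h3⟩ := hB2 T h.2 (zz l) (hzz l T h.1)
      exact ⟨E, h2, fun _ _ => ⟨h1, h3⟩⟩
    · exact ⟨∅, countable_empty, fun h1 h2 => absurd ⟨h1, h2⟩ h⟩
  choose E hE1 hE2 using hE
  refine ⟨fun l => ⋃ c ∈ {c | c ∈ l}, match c with
    | Code.prd T => E l T
    | _ => ∅, ?_, ?_⟩
  · intro l
    refine (List.finite_toSet l).countable.biUnion ?_
    intro c _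
    rcases c with T | z | ⟨M, β, x, y, c, ε⟩
    · exact hE1 l T
    · exact countable_empty
    · exact countable_empty
  · intro M hM hcl
    obtain ⟨m, hm⟩ := hM.exists_eq_range ⟨_, hcl.top⟩
    let L : ℕ → List (Code K) := fun n => (List.range (n + 1)).map m
    have hL1 : ∀ n k, k ≤ n → m k ∈ L n := fun n k hk =>
      List.mem_map.2 ⟨k, List.mem_range.2 (Nat.lt_succ_of_le hk), rfl⟩
    have hL2 : ∀ n, ∀ c ∈ L n, c ∈ M := by
      intro n c hc
      obtain ⟨k, _, rfl⟩ := List.mem_map.1 hc
      rw [hm]; exact ⟨k, rfl⟩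
    obtain ⟨x, hx⟩ := exists_clusterPt_of_compactSpace
      (Filter.map (fun n => zz (L n)) Filter.atTop)
    have hxc : ∀ n, x ∈ closure ((fun n => zz (L n)) '' Ici n) := by
      intro n
      rw [mem_closure_iff_clusterPt]
      refine ClusterPt.mono hx ?_
      rw [Filter.le_principal_iff]
      exact Filter.image_mem_map (Filter.mem_atTop n)
    have hxB : ∀ T, Code.prd T ∈ M → x ∈ B T := by
      intro T hT
      rw [hm] at hT
      obtain ⟨k, hk⟩ := hT
      refine hS.ω (B T) (hB1 T) _ ?_ ((Set.to_countable (Ici k)).image _) (hxc k)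
      rintro _ ⟨n, hn, rfl⟩
      exact hzz _ T (hk ▸ hL1 n k hn)
    refine ⟨x, ?_, ?_, ?_⟩
    · intro h
      exact hS.nmem _ (hB1 univ) (h ▸ hxB univ hcl.top)
    · intro T hT hxT
      by_contra hneg
      have h1 := hB3 T hneg
      exact (h1 ▸ (⟨hxB T hT, hxT⟩ : x ∈ B T ∩ one T) : x ∈ (∅ : Set K))
    · intro T hT hpos
      have hT' := hT
      rw [hm] at hT'
      obtain ⟨k, hk⟩ := hT'
      have h1 : (fun n => zz (L n)) '' Ici k ⊆ closure {z | [z] ∈ T ∧ Code.pt z ∈ M} := by
        rintro _ ⟨n, hn, rfl⟩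
        have h2 : Code.prd T ∈ L n := hk ▸ hL1 n k hn
        obtain ⟨h3, h4⟩ := hE2 (L n) T h2 hpos
        refine closure_mono ?_ h4
        intro z hz
        refine ⟨h3 hz, hcl.gen (L n) (hL2 n) z ?_⟩
        simp only [mem_iUnion]
        exact ⟨Code.prd T, h2, hz⟩
      exact closure_minimal h1 isClosed_closure (hxc k)

end Pool.Agent.CpFU
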