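import Pool.Agent.CpFU.Defs

/-!
# Internal statements (modules) for `MP_435463_gt`
`K` is a compact Hausdorff space, `Y` a set of continuous functions on `K`, viewed in the product
`K → ℝ` (pointwise topology).
-/

universe u

open Set Topology

namespace Pool.Agent.CpFU

/-- Countable extent of a set `Y` in a space `E`, in the form without accumulation points. -/
def CE {E : Type u} [TopologicalSpace E] (Y : Set E) : Prop :=
  ∀ D ⊆ Y, (∀ z ∈ Y, ∃ V ∈ 𝓝 z, V ∩ D ⊆ {z}) → D.Countable

/-- `Y` separates the points of `K`. -/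
def Sep {K : Type u} (Y : Set (K → ℝ)) : Prop := ∀ a b : K, (∀ y ∈ Y, y a = y b) → a = b

/-- Baturov's theorem for compact `K`. -/
def Baturov_Stmt : Prop :=
  ∀ (K : Type u) [TopologicalSpace K] [CompactSpace K] [T2Space K] (Y : Set (K → ℝ)),
    (∀ y ∈ Y, Continuous y) → CE Y → IsLindelof Y

/-- `TightStatement` on the level of compact spaces `K` with a Lindelof separating `Y`. -/
def TightCore : Prop :=
  ∀ (K : Type u) [TopologicalSpace K] [CompactSpace K] [T2Space K] (Y : Set (K → ℝ)),
    (∀ y ∈ Y, Continuous y) → Sep Y → IsLindelof Y → CountablyTight K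

/-- The ccc step. `I` is an uncountable linear order with countable initial segments. -/
def Hom_Stmt : Prop := MAω₁.{u} →
  ∀ (K : Type u) [TopologicalSpace K] [CompactSpace K] [T2Space K],
    (∀ m : ℕ, CountablyTight (Fin m → K × K)) →
    ∀ (I : Type u) [LinearOrder I], (∀ i : I, (Set.Iic i).Countable) → ¬ Countable I →
    ∀ (a b : I → K) (y : I → K → ℝ), (∀ i, Continuous (y i)) →
      (∀ i j, j < i → y j (a i) = y j (b i)) → ∀ η : ℝ, 0 < η →
      ∃ J : Set I, ¬ J.Countable ∧ ∀ i ∈ J, ∀ j ∈ J, i ≠ j → |y i (b j) - y i (a j)| < η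

/-- The sigma-centred step. -/
def Disc_Stmt : Prop := MAω₁.{u} →
  ∀ (K : Type u) [TopologicalSpace K] [CompactSpace K] [T2Space K]
    [TopologicalSpace.SeparableSpace K] (Y : Set (K → ℝ)),
    (∀ y ∈ Y, Continuous y) → CE Y →
    ∀ (I : Type u), Cardinal.mk I = Cardinal.aleph 1 →
    ∀ (a b : I → K) (y : I → K → ℝ), (∀ i, y i ∈ Y) → ∀ η : ℝ, 0 < η →
      (∀ i j, i ≠ j → |y i (b j) - y i (a j)| < η / 2) →
      (∀ i, η < y i (b i) - y i (a i)) → False

end Pool.Agent.CpFU
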