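import Mathlib

/-!
# `C_p`-theory and forcing axioms: the definitions used in the hand-in for `MP_435463_gt`

* `Cp X`: continuous real functions on `X`, topology of pointwise convergence.
* `CountableExtent X`: every closed discrete subset is countable.
* `CountablyTight X`: every point of a closure is in the closure of a countable subset.
* `CCC P`, `Proper P`: the countable chain condition and properness of a forcing preorder.
* `MAω₁`, `PFA`: filters meeting `ℵ₁` dense sets in ccc, respectively proper, preorders.
* `FrechetStatement`: the statement whose consistency is asked in the problem.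
* `TightStatement`: compact subspaces of `C_p(Y)`, `Y` Lindelof, are countably tight.
-/

universe u

open Set Topology

namespace Pool.Agent.CpFU

/-- `C_p(X)`: continuous functions `X → ℝ` with the topology of pointwise convergence,
i.e. the subspace topology from the product `X → ℝ`. -/
def Cp (X : Type u) [TopologicalSpace X] : Type u := {f : X → ℝ // Continuous f}

instance (X : Type u) [TopologicalSpace X] : TopologicalSpace (Cp X) :=
  TopologicalSpace.induced (fun f : Cp X => (f.1 : X → ℝ)) inferInstance

/-- Every closed discrete subset is countable. -/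
def CountableExtent (X : Type u) [TopologicalSpace X] : Prop :=
  ∀ D : Set X, IsClosed D → DiscreteTopology D → D.Countable

/-- Countable tightness. -/
def CountablyTight (X : Type u) [TopologicalSpace X] : Prop :=
  ∀ A : Set X, ∀ x ∈ closure A, ∃ B, B ⊆ A ∧ B.Countable ∧ x ∈ closure B

/-- Two conditions of a forcing preorder are compatible if they have a common lower bound. -/
def Compat {P : Type u} [Preorder P] (p q : P) : Prop := ∃ r, r ≤ p ∧ r ≤ q

/-- Dense subsets of a forcing preorder. -/
def DenseSet {P : Type u} [Preorder P] (D : Set P) : Prop := ∀ p, ∃ q ∈ D, q ≤ p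

/-- Filters of a forcing preorder: nonempty, upward closed, downward directed. -/
structure IsFilt {P : Type u} [Preorder P] (G : Set P) : Prop where
  nonempty : G.Nonempty
  upward : ∀ p ∈ G, ∀ q, p ≤ q → q ∈ G
  directed : ∀ p ∈ G, ∀ q ∈ G, ∃ r ∈ G, r ≤ p ∧ r ≤ q

/-- The countable chain condition: every set of pairwise incompatible conditions is countable. -/
def CCC (P : Type u) [Preorder P] : Prop :=
  ∀ A : Set P, (∀ p ∈ A, ∀ q ∈ A, p ≠ q → ¬ Compat p q) → A.Countable

/-- `M` is a subset of the disjoint union of `P` and of the power set of `P`; `q` is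
`(M, P)`-generic: for every dense set `D ∈ M`, the set `D ∩ M` is predense below `q`. -/
def Generic {P : Type u} [Preorder P] (M : Set (P ⊕ Set P)) (q : P) : Prop :=
  ∀ D : Set P, Sum.inr D ∈ M → DenseSet D →
    ∀ r ≤ q, ∃ d ∈ D, Sum.inl d ∈ M ∧ Compat r d

/-- Properness: for club many countable `M` (namely all countable `M` closed under a suitable
countable-valued function `F` of finite lists), every condition `p ∈ M` has an `(M, P)`-generic
extension. -/
def Proper (P : Type u) [Preorder P] : Prop :=
  ∃ F : List (P ⊕ Set P) → Set (P ⊕ Set P), (∀ l, (F l).Countable) ∧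
    ∀ M : Set (P ⊕ Set P), M.Countable → (∀ l, (∀ z ∈ l, z ∈ M) → F l ⊆ M) →
      ∀ p, Sum.inl p ∈ M → ∃ q ≤ p, Generic M q

/-- The forcing axiom for `ℵ₁` dense sets and the class `Φ` of preorders. -/
def ForcingAxiom (Φ : ∀ (P : Type u) [Preorder P], Prop) : Prop :=
  ∀ (P : Type u) [Preorder P] [Nonempty P], Φ P →
    ∀ 𝒟 : Set (Set P), Cardinal.mk 𝒟 ≤ Cardinal.aleph 1 → (∀ D ∈ 𝒟, DenseSet D) →
      ∃ G : Set P, IsFilt G ∧ ∀ D ∈ 𝒟, (G ∩ D).Nonempty

/-- Martin's Axiom for `ℵ₁` dense sets. -/
def MAω₁ : Prop := ForcingAxiom.{u} (fun P _ => CCC P)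

/-- The Proper Forcing Axiom. -/
def PFA : Prop := ForcingAxiom.{u} (fun P _ => Proper P)

/-- For every Tychonoff space `X` of countable extent, every compact subspace of `C_p(X)` is
Frechet-Urysohn. -/
def FrechetStatement : Prop :=
  ∀ (X : Type u) [TopologicalSpace X] [T35Space X], CountableExtent X →
    ∀ K : Set (Cp X), IsCompact K → FrechetUrysohnSpace K

/-- For every Tychonoff Lindelof space `Y`, every compact subspace of `C_p(Y)` is countably
tight. -/
def TightStatement : Prop :=
  ∀ (Y : Type u) [TopologicalSpace Y] [T35Space Y] [LindelofSpace Y],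
    ∀ K : Set (Cp Y), IsCompact K → CountablyTight K

end Pool.Agent.CpFU
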