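import Pool.Agent.CpFU.Poset

/-! # Properness of the poset and unboundedness -/

universe u

open Set Topology

namespace Pool.Agent.CpFU

variable {K : Type u} [TopologicalSpace K]

/-- The union of the sets of conditions in a list of parameters. -/
def getD {C : Ctx K} (l : List (ZZ C)) : Set (PP C) :=
  {p | ∃ D, (Sum.inr (Sum.inr D) : ZZ C) ∈ l ∧ p ∈ D}

/-- The codes in a list of parameters. -/
def getC {C : Ctx K} (l : List (ZZ C)) : List (Code K) :=
  l.filterMap (fun z => match z with
    | Sum.inl c => some c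
    | _ => none)

/-- The nodes in a list of codes. -/
def getN (l : List (Code K)) : List (Nd K) :=
  l.filterMap (fun c => match c with
    | Code.nd M β x y c ε => some ⟨M, β, x, y, c, ε⟩
    | _ => none)

/-- The points in a list of codes. -/
def getP (l : List (Code K)) : List K :=
  l.filterMap (fun c => match c with
    | Code.pt x => some x
    | _ => none)

omit [TopologicalSpace K] in
theorem getN_map (s : List (Nd K)) (v : List K) :
    getN (s.map Nd.code ++ v.map Code.pt) = s := by
  unfold getN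
  rw [List.filterMap_append]
  have h1 : ∀ s : List (Nd K), List.filterMap (fun c => match c with
    | Code.nd M β x y c ε => some (⟨M, β, x, y, c, ε⟩ : Nd K)
    | _ => none) (s.map Nd.code) = s := by
    intro s
    induction s with
    | nil => rfl
    | cons a s ih =>
      rw [List.map_cons]
      simp only [Nd.code, List.filterMap_cons]
      congr 1
  have h2 : ∀ v : List K, List.filterMap (fun c => match c with
    | Code.nd M β x y c ε => some (⟨M, β, x, y, c, ε⟩ : Nd K)
    | _ => none) (v.map Code.pt) = [] := by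
    intro v
    induction v with
    | nil => rfl
    | cons a v ih =>
      rw [List.map_cons]
      simp only [List.filterMap_cons]
      exact ih
  rw [h1, h2, List.append_nil]

omit [TopologicalSpace K] in
theorem getP_map (s : List (Nd K)) (v : List K) :
    getP (s.map Nd.code ++ v.map Code.pt) = v := by
  unfold getP
  rw [List.filterMap_append]
  have h1 : ∀ s : List (Nd K), List.filterMap (fun c => match c with
    | Code.pt x => some x
    | _ => none) (s.map Nd.code) = [] := by
    intro s
    induction s with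
    | nil => rfl
    | cons a s ih =>
      rw [List.map_cons]
      simp only [Nd.code, List.filterMap_cons]
      exact ih
  have h2 : ∀ v : List K, List.filterMap (fun c => match c with
    | Code.pt x => some x
    | _ => none) (v.map Code.pt) = v := by
    intro v
    induction v with
    | nil => rfl
    | cons a v ih =>
      rw [List.map_cons]
      simp only [List.filterMap_cons]
      congr 1
  rw [h1, h2, List.nil_append]

theorem getC_map {C : Ctx K} (D : Set (PP C)) (l : List (Code K)) :
    getC ((Sum.inr (Sum.inr D) : ZZ C) :: l.map Sum.inl) = l := by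
  unfold getC
  simp only [List.filterMap_cons]
  induction l with
  | nil => rfl
  | cons a l ih =>
    rw [List.map_cons]
    simp only [List.filterMap_cons]
    congr 1

theorem getD_map {C : Ctx K} (D : Set (PP C)) (l : List (Code K)) :
    getD ((Sum.inr (Sum.inr D) : ZZ C) :: l.map Sum.inl) = D := by
  ext p
  constructor
  · rintro ⟨D', h1, h2⟩
    rcases List.mem_cons.1 h1 with h | h
    · cases h
      exact h2
    · obtain ⟨c, -, hc⟩ := List.mem_map.1 h
      cases hc
  · intro h
    exact ⟨D, List.mem_cons_self, h⟩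

open Classical in
/-- The condition chosen for `D`, `s`, `v`. -/
noncomputable def chosen (C : Ctx K) (D : Set (PP C)) (s : List (Nd K)) (v : List K) :
    Set (PP C) :=
  if h : v ∈ T0 C D s then {⟨s ++ h.choose, h.choose_spec.choose⟩} else ∅

theorem chosen_countable (C : Ctx K) (D : Set (PP C)) (s : List (Nd K)) (v : List K) :
    (chosen C D s v).Countable := by
  unfold chosen
  split
  · exact countable_singleton _
  · exact countable_empty

theorem chosen_spec (C : Ctx K) (D : Set (PP C)) (s : List (Nd K)) (v : List K)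
    (hv : v ∈ T0 C D s) : ∃ u : List (Nd K), ∃ h : Cond C (s ++ u),
      (⟨s ++ u, h⟩ : PP C) ∈ D ∧ u.map Nd.x = v ∧ (⟨s ++ u, h⟩ : PP C) ∈ chosen C D s v := by
  refine ⟨hv.choose, hv.choose_spec.choose, hv.choose_spec.choose_spec.1,
    hv.choose_spec.choose_spec.2, ?_⟩
  unfold chosen
  rw [dif_pos hv]
  rfl

/-- The closure function for `N`. -/
noncomputable def FN (C : Ctx K) (l : List (ZZ C)) : Set (ZZ C) :=
  Sum.inl '' (Fc C.𝓐 C.xs C.G (getC l)) ∪
  (Sum.inl '' (⋃ p ∈ {p : PP C | (Sum.inr (Sum.inl p) : ZZ C) ∈ l}, Nd.code '' {n | n ∈ p.1}) ∪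
  ({Sum.inl (Code.prd (T0 C (getD l) (getN (getC l))))} ∪
  (fun p : PP C => (Sum.inr (Sum.inl p) : ZZ C)) ''
    (chosen C (getD l) (getN (getC l)) (getP (getC l)))))

theorem FN_countable (C : Ctx K) (hG : ∀ l, (C.G l).Countable) (l : List (ZZ C)) :
    (FN C l).Countable := by
  refine Countable.union ((Fc_countable _ _ _ hG _).image _) (Countable.union ?_
    (Countable.union (countable_singleton _) ((chosen_countable _ _ _ _).image _)))
  refine Countable.image (Countable.biUnion ?_ ?_) _
  · have h1 : {p : PP C | (Sum.inr (Sum.inl p) : ZZ C) ∈ l} =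
        (fun p : PP C => (Sum.inr (Sum.inl p) : ZZ C)) ⁻¹' {z | z ∈ l} := rfl
    rw [h1]
    refine (List.finite_toSet l).countable.preimage ?_
    intro a b hab
    simpa using hab
  · intro p _
    exact (List.finite_toSet p.1).countable.image _

theorem NCl_of_FN {C : Ctx K} {N : Set (ZZ C)}
    (h : ∀ l, (∀ z ∈ l, z ∈ N) → FN C l ⊆ N) : NCl C N := by
  constructor
  · apply Cl_of_Fc
    intro l hl c hc
    have h1 := h (l.map Sum.inl) (by
      intro z hz
      obtain ⟨c, hc, rfl⟩ := List.mem_map.1 hz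
      exact hl c hc)
    apply h1
    refine Or.inl ⟨c, ?_, rfl⟩
    have h2 : getC ((l.map Sum.inl : List (ZZ C))) = l := by
      unfold getC
      simp
    rwa [h2]
  · intro p hp n hn
    apply h [Sum.inr (Sum.inl p)] (by simpa using hp)
    refine Or.inr (Or.inl ⟨n.code, ?_, rfl⟩)
    simp only [mem_iUnion]
    exact ⟨p, List.mem_singleton.2 rfl, n, hn, rfl⟩
  · intro D hD s hs
    have h1 := h ((Sum.inr (Sum.inr D) : ZZ C) ::
      (s.map Nd.code ++ ([] : List K).map Code.pt).map Sum.inl) (by
      intro z hz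
      rcases List.mem_cons.1 hz with rfl | hz
      · exact hD
      · obtain ⟨c, hc, rfl⟩ := List.mem_map.1 hz
        simp only [List.map_nil, List.append_nil] at hc
        obtain ⟨n, hn, rfl⟩ := List.mem_map.1 hc
        exact hs n hn)
    apply h1
    refine Or.inr (Or.inr (Or.inl ?_))
    rw [getC_map, getD_map, getN_map]
    rfl
  · intro D hD s hs v hv hvN
    have h1 := h ((Sum.inr (Sum.inr D) : ZZ C) ::
      (s.map Nd.code ++ v.map Code.pt).map Sum.inl) (by
      intro z hz
      rcases List.mem_cons.1 hz with rfl | hz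
      · exact hD
      · obtain ⟨c, hc, rfl⟩ := List.mem_map.1 hz
        rcases List.mem_append.1 hc with hc | hc
        · obtain ⟨n, hn, rfl⟩ := List.mem_map.1 hc
          exact hs n hn
        · obtain ⟨z', hz', rfl⟩ := List.mem_map.1 hc
          exact hvN z' hz')
    obtain ⟨u, hu, h2, h3, h4⟩ := chosen_spec C D s v hv
    refine ⟨u, hu, h2, h3, ?_⟩
    apply h1
    refine Or.inr (Or.inr (Or.inr ⟨_, ?_, rfl⟩))
    rw [getC_map, getD_map, getN_map, getP_map]
    exact h4

/-- The standing assumptions on the data. -/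
structure CtxOK [CompactSpace K] (C : Ctx K) : Prop where
  G1 : ∀ l, (C.G l).Countable
  G2 : ∀ M : Set (Code K), M.Countable → Cl C.𝓐 C.xs C.G M → ∃ x, x ≠ C.xs ∧ Pt C.𝓐 M x
  Yc : ∀ y ∈ C.Y, Continuous y
  Ys : Sep C.Y

theorem exists_rat (u v : ℝ) (h : u ≠ v) : ∃ c ε : ℚ, 0 < ε ∧ |u - c| < ε ∧
    2 * (ε : ℝ) ≤ |v - c| := by
  have h0 : 0 < |v - u| := abs_pos.2 (sub_ne_zero.2 h.symm)
  obtain ⟨ε, hε1, hε2⟩ := exists_rat_btwn (show (0 : ℝ) < |v - u| / 4 by positivity)
  obtain ⟨c, hc1, hc2⟩ := exists_rat_btwn (show u - ε < u + ε by linarith)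
  have h1 : |u - c| < ε := by
    rw [abs_lt]; constructor <;> linarith
  refine ⟨c, ε, by exact_mod_cast hε1, h1, ?_⟩
  have h2 : |v - u| ≤ |v - c| + |u - c| := by
    have := abs_sub_le v c u
    rwa [abs_sub_comm (c : ℝ) u] at this
  linarith

/-- Existence of nodes. -/
theorem exists_node [CompactSpace K] {C : Ctx K} (hC : CtxOK C) {M : Set (Code K)}
    (hM : M.Countable) (hcl : Cl C.𝓐 C.xs C.G M) (β : Code K) :
    ∃ a : Nd K, Valid C a ∧ range a.M = M ∧ a.β = β := by
  obtain ⟨x, hx, hpt⟩ := hC.G2 M hM hcl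
  obtain ⟨m, hm⟩ := hM.exists_eq_range ⟨_, hcl.top⟩
  have h1 : ∃ y ∈ C.Y, y x ≠ y C.xs := by
    by_contra hcon
    push Not at hcon
    exact hx (hC.Ys x C.xs hcon)
  obtain ⟨y, hy, hyx⟩ := h1
  obtain ⟨c, ε, hε, h2, h3⟩ := exists_rat _ _ hyx
  refine ⟨⟨m, β, x, y, c, ε⟩, ?_, hm.symm, rfl⟩
  subst hm
  exact ⟨hcl, hpt, hy, hε, h2, h3⟩

theorem MN_countable {C : Ctx K} {N : Set (ZZ C)} (hN : N.Countable) : (MN N).Countable :=
  hN.preimage Sum.inl_injective

/-- Adding a node on top of a condition. -/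
theorem extend_top [CompactSpace K] {C : Ctx K} (hC : CtxOK C) {N : Set (ZZ C)}
    (hNc : N.Countable) (hN : NCl C N) (p : PP C) (hp : ∀ n ∈ p.1, n.code ∈ MN N) :
    ∃ (a : Nd K) (q : PP C), Valid C a ∧ range a.M = MN N ∧ a ∈ q.1 ∧ q ≤ p := by
  rcases List.eq_nil_or_concat p.1 with h0 | ⟨l, b, hl⟩
  · obtain ⟨a, ha1, ha2, -⟩ := exists_node hC (MN_countable hNc) hN.cl (Code.prd univ)
    refine ⟨a, ⟨[a], ?_, ?_⟩, ha1, ha2, List.mem_singleton.2 rfl, ?_⟩
    · intro n hn
      rw [List.mem_singleton] at hn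
      rwa [hn]
    · exact List.pairwise_singleton _ _
    · intro n hn
      rw [h0] at hn
      exact absurd hn (by simp)
  · obtain ⟨a, ha1, ha2, ha3⟩ := exists_node hC (MN_countable hNc) hN.cl b.code
    have hl' : p.1 = l ++ [b] := by simpa using hl
    have hpw : (l ++ [b]).Pairwise Rel := hl' ▸ p.2.2
    have hval : ∀ n ∈ l ++ [b], Valid C n := fun n hn => p.2.1 n (hl' ▸ hn)
    rw [List.pairwise_append] at hpw
    refine ⟨a, ⟨p.1 ++ [a], ?_, ?_⟩, ha1, ha2, by simp, ?_⟩
    · intro n hn
      rcases List.mem_append.1 hn with hn | hn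
      · exact p.2.1 n hn
      · rw [List.mem_singleton] at hn
        rwa [hn]
    · rw [List.pairwise_append]
      refine ⟨p.2.2, List.pairwise_singleton _ _, ?_⟩
      intro n hn n' hn'
      rw [List.mem_singleton] at hn'
      subst hn'
      refine ⟨ha2 ▸ hp n hn, ?_⟩
      intro hβ
      exfalso
      rw [ha3] at hβ
      rw [hl'] at hn
      rcases List.mem_append.1 hn with hn | hn
      · have h1 : Rel n b := hpw.2.2 n hn b (by simp)
        exact b.code_notMem (rel_sub h1 (hval b (by simp)) hβ)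
      · rw [List.mem_singleton] at hn
        subst hn
        exact n.code_notMem hβ
    · intro n hn
      exact List.mem_append.2 (Or.inl hn)

theorem pp_proper [CompactSpace K] {C : Ctx K} (hC : CtxOK C) : Proper (PP C) := by
  refine proper_of_big (Z := ZZ C) (fun p => Sum.inr (Sum.inl p))
    (fun a b hab => Sum.inl.inj (Sum.inr.inj hab)) (fun D => Sum.inr (Sum.inr D))
    (FN C) (FN_countable C hC.G1) ?_
  intro N hNc hcl p hp
  have hN : NCl C N := NCl_of_FN hcl
  obtain ⟨a, q, ha1, ha2, ha3, hqp⟩ := extend_top hC hNc hN p (hN.nodes p hp)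
  refine ⟨q, hqp, ?_⟩
  intro D hD hdense r hr
  exact generic hC.Yc hN ha1 ha2 ha3 D hD hdense r hr

/-- Conditions with an unrestricted node whose model contains a given point. -/
def DD (C : Ctx K) (z : K) : Set (PP C) :=
  {r | ∃ n ∈ r.1, n.β = Code.prd univ ∧ Code.pt z ∈ range n.M}

theorem unbounded [CompactSpace K] {C : Ctx K} (hC : CtxOK C) {I : Type u} (e : I → K) :
    ∃ q₀ : PP C, ∀ r ≤ q₀, ∀ i, ∃ r' ≤ r, r' ∈ DD C (e i) := by
  classical
  by_contra hcon
  push Not at hcon
  let E : Set (PP C) := {r | ∃ i, ∀ r' ≤ r, r' ∉ DD C (e i)}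
  have hE : DenseSet E := by
    intro q
    obtain ⟨r, hr, i, hi⟩ := hcon q
    exact ⟨r, ⟨i, hi⟩, hr⟩
  let ix : PP C → Set (ZZ C) := fun r =>
    if h : ∃ i, ∀ r' ≤ r, r' ∉ DD C (e i) then {Sum.inl (Code.pt (e h.choose))} else ∅
  let F : List (ZZ C) → Set (ZZ C) := fun l => FN C l ∪
    ⋃ p ∈ {p : PP C | (Sum.inr (Sum.inl p) : ZZ C) ∈ l}, ix p
  have hF : ∀ l, (F l).Countable := by
    intro l
    refine (FN_countable C hC.G1 l).union (Countable.biUnion ?_ ?_)
    · have h1 : {p : PP C | (Sum.inr (Sum.inl p) : ZZ C) ∈ l} =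
          (fun p : PP C => (Sum.inr (Sum.inl p) : ZZ C)) ⁻¹' {z | z ∈ l} := rfl
      rw [h1]
      refine (List.finite_toSet l).countable.preimage ?_
      intro a b hab
      simpa using hab
    · intro p _
      simp only [ix]
      split
      · exact countable_singleton _
      · exact countable_empty
  let N := clo F {Sum.inr (Sum.inr E)}
  have hNc : N.Countable := clo_countable hF (countable_singleton _)
  have hNF : ∀ l, (∀ z ∈ l, z ∈ N) → F l ⊆ N := fun l hl => clo_closed F _ l hl
  have hN : NCl C N := NCl_of_FN (fun l hl => subset_union_left.trans (hNF l hl))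
  have hEN : (Sum.inr (Sum.inr E) : ZZ C) ∈ N := clo_sub F _ rfl
  obtain ⟨a, ha1, ha2, ha3⟩ := exists_node hC (MN_countable hNc) hN.cl (Code.prd univ)
  let q : PP C := ⟨[a], by
    intro n hn
    rw [List.mem_singleton] at hn
    rwa [hn], List.pairwise_singleton _ _⟩
  have haq : a ∈ q.1 := List.mem_singleton.2 rfl
  obtain ⟨d, hd, hdN, r, hr1, hr2⟩ := generic hC.Yc hN ha1 ha2 haq E hEN hE q le_rfl
  have hd' : ∃ i, ∀ r' ≤ d, r' ∉ DD C (e i) := hd
  have h1 : (Sum.inl (Code.pt (e hd'.choose)) : ZZ C) ∈ N := by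
    apply hNF [Sum.inr (Sum.inl d)] (by simpa using hdN)
    refine Or.inr ?_
    simp only [mem_iUnion]
    refine ⟨d, List.mem_singleton.2 rfl, ?_⟩
    simp only [ix]
    rw [dif_pos hd']
    rfl
  refine hd'.choose_spec r hr2 ⟨a, hr1 a haq, ha3, ?_⟩
  rw [ha2]
  exact h1

end Pool.Agent.CpFU
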