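import Pool.Agent.CpFU.Code

/-! # The proper poset of finite chains of nodes -/

universe u

open Set Topology

namespace Pool.Agent.CpFU

/-- All the data. -/
structure Ctx (K : Type u) where
  𝓐 : Set (Set K)
  xs : K
  G : List (Code K) → Set K
  Y : Set (K → ℝ)

variable {K : Type u} [TopologicalSpace K]

/-- The open set of a node. -/
def Nd.W (n : Nd K) : Set K := {z | |n.y z - n.c| < n.ε}

/-- Valid nodes. -/
structure Valid (C : Ctx K) (n : Nd K) : Prop where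
  cl : Cl C.𝓐 C.xs C.G (range n.M)
  pt : Pt C.𝓐 (range n.M) n.x
  yY : n.y ∈ C.Y
  εpos : (0 : ℚ) < n.ε
  near : |n.y n.x - n.c| < n.ε
  far : 2 * (n.ε : ℝ) ≤ |n.y C.xs - n.c|

/-- The relation between consecutive nodes of a condition. -/
def Rel (n n' : Nd K) : Prop := n.code ∈ range n'.M ∧ (n'.β ∈ range n.M → n.x ∈ n'.W)

/-- Conditions. -/
def Cond (C : Ctx K) (l : List (Nd K)) : Prop := (∀ n ∈ l, Valid C n) ∧ l.Pairwise Rel

/-- The forcing poset. -/
def PP (C : Ctx K) : Type u := {l : List (Nd K) // Cond C l}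

instance (C : Ctx K) : Preorder (PP C) where
  le p q := ∀ n ∈ q.1, n ∈ p.1
  le_refl p := fun n hn => hn
  le_trans p q r h1 h2 := fun n hn => h1 n (h2 n hn)

theorem rel_sub {C : Ctx K} {n n' : Nd K} (h : Rel n n') (h' : Valid C n') :
    range n.M ⊆ range n'.M := h'.cl.nd1 n h.1

/-- The point sequences of the end extensions of `s` in `D`. -/
def T0 (C : Ctx K) (D : Set (PP C)) (s : List (Nd K)) : Set (List K) :=
  {v | ∃ u : List (Nd K), ∃ h : Cond C (s ++ u), (⟨s ++ u, h⟩ : PP C) ∈ D ∧ u.map Nd.x = v}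

/-- The space of parameters. -/
abbrev ZZ (C : Ctx K) : Type u := Code K ⊕ (PP C ⊕ Set (PP C))

/-- The codes in `N`. -/
def MN {C : Ctx K} (N : Set (ZZ C)) : Set (Code K) := {c | Sum.inl c ∈ N}

/-- Closed countable `N`. -/
structure NCl (C : Ctx K) (N : Set (ZZ C)) : Prop where
  cl : Cl C.𝓐 C.xs C.G (MN N)
  nodes : ∀ p : PP C, (Sum.inr (Sum.inl p) : ZZ C) ∈ N → ∀ n ∈ p.1, n.code ∈ MN N
  t0 : ∀ D : Set (PP C), (Sum.inr (Sum.inr D) : ZZ C) ∈ N → ∀ s : List (Nd K),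
    (∀ n ∈ s, n.code ∈ MN N) → Code.prd (T0 C D s) ∈ MN N
  ch : ∀ D : Set (PP C), (Sum.inr (Sum.inr D) : ZZ C) ∈ N → ∀ s : List (Nd K),
    (∀ n ∈ s, n.code ∈ MN N) → ∀ v ∈ T0 C D s, (∀ z ∈ v, Code.pt z ∈ MN N) →
      ∃ u : List (Nd K), ∃ h : Cond C (s ++ u), (⟨s ++ u, h⟩ : PP C) ∈ D ∧ u.map Nd.x = v ∧
        (Sum.inr (Sum.inl ⟨s ++ u, h⟩) : ZZ C) ∈ N

section Updown
variable {C : Ctx K}

/-- Going down: from a long sequence to the empty one. -/
theorem down {M : Set (Code K)} (hM : Cl C.𝓐 C.xs C.G M) (w : List (Nd K)) :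
    (∀ n ∈ w, Valid C n ∧ M ⊆ range n.M) → w.Pairwise Rel → ∀ T, Code.prd T ∈ M →
      w.map Nd.x ∈ T → ([] : List K) ∈ (plus C.𝓐)^[w.length] T := by
  induction w using List.reverseRecOn with
  | nil => intro _ _ T _ h; simpa using h
  | append_singleton w n ih =>
    intro hv hp T hT hw
    rw [List.pairwise_append] at hp
    obtain ⟨hp1, -, hp3⟩ := hp
    have hn := hv n (by simp)
    have h1 : Code.prd (sect T (w.map Nd.x)) ∈ range n.M := by
      apply hn.1.cl.secs _ _ (hn.2 hT)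
      intro z hz
      obtain ⟨n', hn', rfl⟩ := List.mem_map.1 hz
      exact hn.1.cl.nd2 n' (hp3 n' hn' n (by simp)).1
    have h2 : [n.x] ∈ sect T (w.map Nd.x) := by
      simpa [sect] using hw
    have h3 : w.map Nd.x ∈ plus C.𝓐 T := hn.1.pt.neg _ h1 h2
    have h4 := ih (fun n' hn' => hv n' (by simp [hn'])) hp1 (plus C.𝓐 T) (hM.pls T hT) h3
    rw [List.length_append, List.length_singleton, Function.iterate_succ_apply]
    exact h4

/-- Going up inside `M`. -/
theorem up {M : Set (Code K)} (hM : Cl C.𝓐 C.xs C.G M) {x : K} (hx : Pt C.𝓐 M x) {W : Set K}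
    (hW : W ∈ 𝓝 x) (k : ℕ) : ∀ T, Code.prd T ∈ M → ∀ v : List K, (∀ z ∈ v, Code.pt z ∈ M) →
      v ∈ (plus C.𝓐)^[k] T → ∃ v' : List K, (∀ z ∈ v', Code.pt z ∈ M ∧ z ∈ W) ∧ v ++ v' ∈ T := by
  induction k with
  | zero => intro T _ v _ h; exact ⟨[], by simp, by simpa using h⟩
  | succ k ih =>
    intro T hT v hv h
    rw [Function.iterate_succ_apply] at h
    obtain ⟨v', h1, h2⟩ := ih (plus C.𝓐 T) (hM.pls T hT) v hv h
    have h3 : Code.prd (sect T (v ++ v')) ∈ M := by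
      apply hM.secs _ _ hT
      intro z hz
      rcases List.mem_append.1 hz with hz | hz
      · exact hv z hz
      · exact (h1 z hz).1
    have h4 : Pos C.𝓐 (one (sect T (v ++ v'))) := h2
    have h5 := hx.pos _ h3 h4
    obtain ⟨z, hzW, hz1, hz2⟩ := mem_closure_iff_nhds.1 h5 W hW
    refine ⟨v' ++ [z], ?_, ?_⟩
    · intro a ha
      rcases List.mem_append.1 ha with ha | ha
      · exact h1 a ha
      · rw [List.mem_singleton] at ha
        subst ha
        exact ⟨hz2, hzW⟩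
    · have : v ++ v' ++ [z] ∈ T := hz1
      simpa using this

end Updown

theorem W_nhds {C : Ctx K} (hY : ∀ y ∈ C.Y, Continuous y) {n : Nd K} (hn : Valid C n) {x : K}
    (hx : x ∈ n.W) : n.W ∈ 𝓝 x := by
  have h1 : IsOpen n.W := by
    have := hY n.y hn.yY
    exact isOpen_lt (by fun_prop) continuous_const
  exact h1.mem_nhds hx

/-- Genericity: every condition containing a node whose set of codes is `MN N` is `N`-generic. -/
theorem generic {C : Ctx K} (hY : ∀ y ∈ C.Y, Continuous y) {N : Set (ZZ C)} (hN : NCl C N)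
    {a : Nd K} (ha : Valid C a) (haN : range a.M = MN N) {q : PP C} (hq : a ∈ q.1)
    (D : Set (PP C)) (hD : (Sum.inr (Sum.inr D) : ZZ C) ∈ N) (hdense : DenseSet D) :
    ∀ r ≤ q, ∃ d ∈ D, (Sum.inr (Sum.inl d) : ZZ C) ∈ N ∧ Compat r d := by
  classical
  intro r hr
  obtain ⟨r₂, hr₂D, hr₂⟩ := hdense r
  have har : a ∈ r₂.1 := hr₂ a (hr a hq)
  obtain ⟨s, t, hst⟩ := List.append_of_mem har
  obtain ⟨⟨l, hl⟩, hle⟩ : ∃ z : PP C, z = r₂ := ⟨r₂, rfl⟩
  subst hle
  simp only at hst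
  subst hst
  obtain ⟨hv, hp⟩ := hl
  rw [List.pairwise_append] at hp
  obtain ⟨hp1, hp2, hp3⟩ := hp
  have hp2' := List.pairwise_cons.1 hp2
  -- the lower part
  have hs : ∀ n ∈ s, n.code ∈ MN N := by
    intro n hn
    rw [← haN]
    exact (hp3 n hn a (by simp)).1
  -- the upper part
  have hsub : ∀ n ∈ a :: t, Valid C n ∧ MN N ⊆ range n.M := by
    intro n hn
    refine ⟨hv n (List.mem_append.2 (Or.inr hn)), ?_⟩
    rcases List.mem_cons.1 hn with rfl | hn'
    · rw [haN]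
    · rw [← haN]
      exact rel_sub (hp2'.1 n hn') (hv n (List.mem_append.2 (Or.inr hn)))
  have h1 : Code.prd (T0 C D s) ∈ MN N := hN.t0 D hD s hs
  have h2 : (a :: t).map Nd.x ∈ T0 C D s := ⟨a :: t, ⟨hv, by
    rw [List.pairwise_append]; exact ⟨hp1, hp2, hp3⟩⟩, hr₂D, rfl⟩
  have h3 := down hN.cl (a :: t) hsub hp2 _ h1 h2
  -- the neighbourhood
  let W : Set K := ⋂ n ∈ {n | n ∈ a :: t ∧ a.x ∈ n.W}, n.W
  have hW : W ∈ 𝓝 a.x := by
    refine (Filter.biInter_mem ?_).2 ?_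
    · exact (List.finite_toSet (a :: t)).subset (fun n hn => hn.1)
    · intro n hn
      exact W_nhds hY (hv n (List.mem_append.2 (Or.inr hn.1))) hn.2
  have hpt : Pt C.𝓐 (MN N) a.x := haN ▸ ha.pt
  obtain ⟨v, hv1, hv2⟩ := up hN.cl hpt hW _ _ h1 [] (by simp) h3
  rw [List.nil_append] at hv2
  obtain ⟨u, hu, huD, huv, huN⟩ := hN.ch D hD s hs v hv2 (fun z hz => (hv1 z hz).1)
  have hux : ∀ n ∈ u, n.x ∈ W := by
    intro n hn
    apply (hv1 n.x _).2
    rw [← huv]
    exact List.mem_map.2 ⟨n, hn, rfl⟩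
  have huc : ∀ n ∈ u, n.code ∈ MN N := fun n hn =>
    hN.nodes _ huN n (List.mem_append.2 (Or.inr hn))
  have hurel : ∀ n ∈ u, ∀ b ∈ a :: t, Rel n b := by
    intro n hn b hb
    refine ⟨(hsub b hb).2 (huc n hn), ?_⟩
    intro hβ
    have hβ' : b.β ∈ range a.M := by
      rw [haN]
      exact hN.cl.nd1 n (huc n hn) hβ
    have hab : a.x ∈ b.W := by
      rcases List.mem_cons.1 hb with rfl | hb'
      · exact ha.near
      · exact (hp2'.1 b hb').2 hβ'
    have := hux n hn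
    simp only [W, mem_iInter] at this
    exact this b ⟨hb, hab⟩
  have hcond : Cond C ((s ++ u) ++ (a :: t)) := by
    refine ⟨?_, ?_⟩
    · intro n hn
      rcases List.mem_append.1 hn with hn | hn
      · exact hu.1 n hn
      · exact hv n (List.mem_append.2 (Or.inr hn))
    · rw [List.pairwise_append]
      refine ⟨hu.2, hp2, ?_⟩
      intro n hn b hb
      rcases List.mem_append.1 hn with hn | hn
      · exact hp3 n hn b hb
      · exact hurel n hn b hb
  refine ⟨⟨s ++ u, hu⟩, huD, huN, ⟨(s ++ u) ++ (a :: t), hcond⟩, ?_, ?_⟩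
  · refine le_trans ?_ hr₂
    intro n hn
    rcases List.mem_append.1 hn with hn | hn
    · exact List.mem_append.2 (Or.inl (List.mem_append.2 (Or.inl hn)))
    · exact List.mem_append.2 (Or.inr hn)
  · intro n hn
    exact List.mem_append.2 (Or.inl hn)

end Pool.Agent.CpFU
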