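import Pool.Agent.CpFU.Closure

/-! # The filter of omega-closed sets in a compact space of uncountable tightness -/

universe u

open Set Topology

namespace Pool.Agent.CpFU

variable {K : Type u} [TopologicalSpace K]

/-- `Q` meets every member of `𝓐`. -/
def Pos (𝓐 : Set (Set K)) (Q : Set K) : Prop := ∀ A ∈ 𝓐, (Q ∩ A).Nonempty

/-- The properties of the filter `𝓐` and of its limit point `xs` that are used. -/
structure Sys (𝓐 : Set (Set K)) (xs : K) : Prop where
  ω : ∀ A ∈ 𝓐, ∀ E ⊆ A, E.Countable → closure E ⊆ A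
  ne : ∀ A ∈ 𝓐, A.Nonempty
  nmem : ∀ A ∈ 𝓐, xs ∉ A
  inter : ∀ f : ℕ → Set K, (∀ n, f n ∈ 𝓐) → (⋂ n, f n) ∈ 𝓐
  pos : ∀ Q, Pos 𝓐 Q → ∃ A ∈ 𝓐, ∀ z ∈ A, ∃ E ⊆ Q, E.Countable ∧ z ∈ closure E
  eqs : ∀ y : K → ℝ, Continuous y → ∃ A ∈ 𝓐, ∀ z ∈ A, y z = y xs

/-- `A` is closed under closures of countable subsets. -/
def OmClosed (A : Set K) : Prop := ∀ E ⊆ A, E.Countable → closure E ⊆ A

theorem OmClosed.inter {A B : Set K} (hA : OmClosed A) (hB : OmClosed B) :
    OmClosed (A ∩ B) := fun E hE hc =>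
  subset_inter (hA E (hE.trans inter_subset_left) hc) (hB E (hE.trans inter_subset_right) hc)

theorem OmClosed.iInter {ι : Sort*} {A : ι → Set K} (hA : ∀ i, OmClosed (A i)) :
    OmClosed (⋂ i, A i) := fun E hE hc =>
  subset_iInter (fun i => hA i E (hE.trans (iInter_subset _ _)) hc)

/-- The union of closures of countable subsets. -/
def omcl (Q : Set K) : Set K := {z | ∃ E ⊆ Q, E.Countable ∧ z ∈ closure E}

theorem omcl_closed (Q : Set K) : OmClosed (omcl Q) := by
  intro E hE hc z hz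
  have hE' : ∀ e ∈ E, ∃ E' : Set K, E' ⊆ Q ∧ E'.Countable ∧ e ∈ closure E' := fun e he => hE he
  choose! f hf1 hf2 hf3 using hE'
  refine ⟨⋃ e ∈ E, f e, ?_, ?_, ?_⟩
  · exact iUnion₂_subset (fun e he => hf1 e he)
  · exact hc.biUnion (fun e he => hf2 e he)
  · have h1 : E ⊆ closure (⋃ e ∈ E, f e) := fun e he =>
      closure_mono (subset_biUnion_of_mem he) (hf3 e he)
    exact closure_minimal h1 isClosed_closure hz

theorem sub_omcl (Q : Set K) : Q ⊆ omcl Q := fun z hz =>
  ⟨{z}, singleton_subset_iff.2 hz, countable_singleton z, subset_closure rfl⟩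

/-- Countable compactness of families of omega-closed sets. -/
theorem inter_nonempty [CompactSpace K] (f : ℕ → Set K) (hω : ∀ n, OmClosed (f n))
    (h : ∀ n, (⋂ k ≤ n, f k).Nonempty) : (⋂ n, f n).Nonempty := by
  choose z hz using h
  obtain ⟨x, hx⟩ := exists_clusterPt_of_compactSpace (Filter.map z Filter.atTop)
  refine ⟨x, mem_iInter.2 (fun n => ?_)⟩
  have h1 : x ∈ closure (z '' (Ici n)) := by
    rw [mem_closure_iff_clusterPt]
    refine ClusterPt.mono hx ?_
    rw [Filter.le_principal_iff]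
    exact Filter.image_mem_map (Filter.mem_atTop n)
  refine hω n _ ?_ ((Set.to_countable _).image z) h1
  rintro _ ⟨k, hk, rfl⟩
  have := hz k
  simp only [mem_iInter] at this
  exact this n hk

theorem exists_sys [CompactSpace K] [T2Space K] (hK : ¬ CountablyTight K) :
    ∃ (𝓐 : Set (Set K)) (xs : K), Sys 𝓐 xs := by
  classical
  -- an omega-closed, non closed set
  obtain ⟨L, hL, xs, hxs, hxs'⟩ : ∃ L : Set K, OmClosed L ∧ ∃ xs, xs ∈ closure L ∧ xs ∉ L := by
    by_contra hcon
    push Not at hcon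
    apply hK
    intro A x hx
    exact hcon (omcl A) (omcl_closed A) x (closure_mono (sub_omcl A) hx)
  -- admissible families
  let Good : Set (Set K) → Prop := fun 𝓕 =>
    (∀ A ∈ 𝓕, OmClosed A ∧ A ⊆ L) ∧
    ∀ (s : Finset (Set K)), (↑s ⊆ 𝓕) → ∀ U ∈ 𝓝 xs, (L ∩ U ∩ ⋂ A ∈ s, A).Nonempty
  have hempty : Good ∅ := by
    refine ⟨fun A hA => absurd hA (notMem_empty _), ?_⟩
    intro s hs U hU
    have : s = ∅ := by
      rw [← Finset.coe_eq_empty]
      exact subset_empty_iff.1 hs
    subst this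
    obtain ⟨z, hz1, hz2⟩ := mem_closure_iff_nhds.1 hxs U hU
    exact ⟨z, ⟨hz2, hz1⟩, by simp⟩
  obtain ⟨𝓐, -, h𝓐⟩ := zorn_subset_nonempty {𝓕 : Set (Set K) | Good 𝓕} (by
    intro c hc hchain hne
    refine ⟨⋃₀ c, ⟨?_, ?_⟩, fun s hs => subset_sUnion_of_mem hs⟩
    · rintro A ⟨s, hs, hA⟩
      exact (hc hs).1 A hA
    · intro s hs U hU
      obtain ⟨t, ht, hst⟩ := DirectedOn.exists_mem_subset_of_finite_of_subset_sUnion hne
        hchain.directedOn s.finite_toSet hs
      exact (hc ht).2 s hst U hU) ∅ hempty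
  have hgood : Good 𝓐 := h𝓐.prop
  -- maximality
  have hmax : ∀ B : Set K, OmClosed B → B ⊆ L →
      (∀ (s : Finset (Set K)), (↑s ⊆ 𝓐) → ∀ U ∈ 𝓝 xs, (L ∩ U ∩ (⋂ A ∈ s, A) ∩ B).Nonempty) →
      B ∈ 𝓐 := by
    intro B hB hBL h
    have h1 : Good (insert B 𝓐) := by
      refine ⟨?_, ?_⟩
      · rintro A (rfl | hA)
        · exact ⟨hB, hBL⟩
        · exact hgood.1 A hA
      · intro s hs U hU
        have hs' : (↑(s.erase B) : Set (Set K)) ⊆ 𝓐 := by
          intro A hA
          rw [Finset.coe_erase] at hA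
          rcases hs hA.1 with rfl | h'
          · exact absurd rfl hA.2
          · exact h'
        obtain ⟨z, ⟨hz1, hz2⟩, hz3⟩ := h (s.erase B) hs' U hU
        refine ⟨z, hz1, ?_⟩
        simp only [mem_iInter] at hz2 ⊢
        intro A hA
        by_cases hAB : A = B
        · subst hAB; exact hz3
        · exact hz2 A (Finset.mem_erase.2 ⟨hAB, hA⟩)
    exact h𝓐.le_of_ge h1 (subset_insert _ _) (mem_insert _ _)
  -- closed neighbourhoods meet L in members of 𝓐
  have hnb : ∀ U ∈ 𝓝 xs, IsClosed U → L ∩ U ∈ 𝓐 := by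
    intro U hU hUc
    refine hmax _ (hL.inter ?_) inter_subset_left ?_
    · intro E hE _
      exact closure_minimal hE hUc
    · intro s hs V hV
      obtain ⟨z, ⟨hz1, hz2⟩, hz3⟩ := hgood.2 s hs (U ∩ V) (Filter.inter_mem hU hV)
      exact ⟨z, ⟨⟨hz1, hz2.2⟩, hz3⟩, hz1, hz2.1⟩
  have hL𝓐 : L ∈ 𝓐 := by
    have := hnb univ Filter.univ_mem isClosed_univ
    rwa [inter_univ] at this
  -- countable intersections
  have hinter : ∀ f : ℕ → Set K, (∀ n, f n ∈ 𝓐) → (⋂ n, f n) ∈ 𝓐 := by
    intro f hf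
    refine hmax _ (OmClosed.iInter (fun n => (hgood.1 _ (hf n)).1))
      ((iInter_subset _ 0).trans (hgood.1 _ (hf 0)).2) ?_
    intro s hs U hU
    obtain ⟨V, hV, hVc, hVU⟩ := exists_mem_nhds_isClosed_subset hU
    let g : ℕ → Set K := fun n => (L ∩ V ∩ ⋂ A ∈ s, A) ∩ f n
    have hg : (⋂ n, g n).Nonempty := by
      apply inter_nonempty
      · intro n
        refine OmClosed.inter (OmClosed.inter (hL.inter ?_) ?_) (hgood.1 _ (hf n)).1
        · intro E hE _
          exact closure_minimal hE hVc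
        · refine OmClosed.iInter (K := K) (fun A => ?_)
          refine OmClosed.iInter (K := K) (fun hA => ?_)
          exact (hgood.1 A (hs hA)).1
      · intro n
        obtain ⟨z, hz1, hz2⟩ := hgood.2 (s ∪ (Finset.range (n + 1)).image f) (by
          intro A hA
          rw [Finset.coe_union, Finset.coe_image] at hA
          rcases hA with hA | ⟨k, _, rfl⟩
          · exact hs hA
          · exact hf k) V hV
        refine ⟨z, ?_⟩
        simp only [mem_iInter] at hz2 ⊢
        intro k hk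
        refine ⟨⟨hz1, ?_⟩, ?_⟩
        · simp only [mem_iInter]
          intro A hA
          exact hz2 A (Finset.mem_union_left _ hA)
        · exact hz2 _ (Finset.mem_union_right _ (Finset.mem_image_of_mem f
            (Finset.mem_range.2 (Nat.lt_succ_of_le hk))))
    obtain ⟨z, hz⟩ := hg
    have hz' : ∀ n, z ∈ g n := fun n => mem_iInter.1 hz n
    exact ⟨z, ⟨⟨(hz' 0).1.1.1, hVU (hz' 0).1.1.2⟩, (hz' 0).1.2⟩, mem_iInter.2 (fun n => (hz' n).2)⟩
  have hfin : ∀ s : Finset (Set K), (↑s ⊆ 𝓐) → (L ∩ ⋂ A ∈ s, A) ∈ 𝓐 := by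
    intro s
    induction s using Finset.induction_on with
    | empty => intro _; simpa using hL𝓐
    | insert B s hB ih =>
      intro hs
      rw [Finset.coe_insert] at hs
      have h1 := ih ((subset_insert _ _).trans hs)
      have h2 : B ∈ 𝓐 := hs (mem_insert _ _)
      have h3 := hinter (fun n => if n = 0 then B else (L ∩ ⋂ A ∈ s, A)) (by
        intro n
        by_cases hn : n = 0
        · simpa [hn] using h2
        · simpa [hn] using h1)
      have h4 : (⋂ n : ℕ, (if n = 0 then B else (L ∩ ⋂ A ∈ s, A))) =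
          L ∩ ⋂ A ∈ insert B s, A := by
        ext z
        simp only [mem_iInter, mem_inter_iff, Finset.mem_insert]
        constructor
        · intro h
          have ha := h 0
          have hb := h 1
          simp only [if_true, one_ne_zero, if_false, mem_inter_iff, mem_iInter] at ha hb
          refine ⟨hb.1, ?_⟩
          rintro A (rfl | hA)
          · exact ha
          · exact hb.2 A hA
        · rintro ⟨h1, h2⟩ n
          by_cases hn : n = 0
          · simpa [hn] using h2 B (Or.inl rfl)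
          · simp only [hn, if_false, mem_inter_iff, mem_iInter]
            exact ⟨h1, fun A hA => h2 A (Or.inr hA)⟩
      rw [h4] at h3
      exact h3
  refine ⟨𝓐, xs, ?_⟩
  constructor
  · exact fun A hA => (hgood.1 A hA).1
  · intro A hA
    obtain ⟨z, hz1, hz2⟩ := hgood.2 {A} (by simpa using hA) univ Filter.univ_mem
    exact ⟨z, by simpa using hz2⟩
  · exact fun A hA h => hxs' ((hgood.1 A hA).2 h)
  · exact hinter
  · intro Q hQ
    refine ⟨omcl (Q ∩ L), ?_, ?_⟩
    · refine hmax _ (omcl_closed _) ?_ ?_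
      · rintro z ⟨E, hE, hc, hz⟩
        exact hL E (hE.trans inter_subset_right) hc hz
      · intro s hs U hU
        obtain ⟨V, hV, hVc, hVU⟩ := exists_mem_nhds_isClosed_subset hU
        have h1 : L ∩ V ∩ (L ∩ ⋂ A ∈ s, A) ∈ 𝓐 := by
          have := hfin (insert (L ∩ V) s) (by
            rw [Finset.coe_insert]
            exact insert_subset (hnb V hV hVc) hs)
          have he : L ∩ V ∩ (L ∩ ⋂ A ∈ s, A) = L ∩ ⋂ A ∈ insert (L ∩ V) s, A := by
            ext z
            simp only [mem_inter_iff, mem_iInter, Finset.mem_insert]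
            constructor
            · rintro ⟨⟨h1, h2⟩, h3, h4⟩
              refine ⟨h1, ?_⟩
              rintro A (rfl | hA)
              · exact ⟨h1, h2⟩
              · exact h4 A hA
            · rintro ⟨h1, h2⟩
              exact ⟨h2 _ (Or.inl rfl), h1, fun A hA => h2 A (Or.inr hA)⟩
          rw [he]
          exact this
        obtain ⟨z, hz1, ⟨hz2, hz3⟩, hz4, hz5⟩ := hQ _ h1
        exact ⟨z, ⟨⟨hz2, hVU hz3⟩, hz5⟩, sub_omcl _ ⟨hz1, hz2⟩⟩
    · rintro z ⟨E, hE, hc, hz⟩
      exact ⟨E, hE.trans inter_subset_left, hc, hz⟩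
  · intro y hy
    refine ⟨⋂ n : ℕ, (L ∩ {z | |y z - y xs| ≤ 1 / ((n : ℝ) + 1)}), hinter _ ?_, ?_⟩
    · intro n
      apply hnb
      · have h1 : {z | |y z - y xs| < 1 / ((n : ℝ) + 1)} ∈ 𝓝 xs := by
          apply IsOpen.mem_nhds
          · exact isOpen_lt (by fun_prop) continuous_const
          · simp only [mem_ofPred_eq, sub_self, abs_zero]
            positivity
        filter_upwards [h1] with z hz
        exact le_of_lt hz
      · exact isClosed_le (by fun_prop) continuous_const
    · intro z hz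
      have h1 : ∀ n : ℕ, |y z - y xs| ≤ 1 / ((n : ℝ) + 1) := fun n => (mem_iInter.1 hz n).2
      have h2 : |y z - y xs| ≤ 0 :=
        ge_of_tendsto' tendsto_one_div_add_atTop_nhds_zero_nat h1
      have h3 := abs_nonpos_iff.1 h2
      linarith

end Pool.Agent.CpFU
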